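import Pool.Agent.Helper80.AFp.LimFd
import Pool.Agent.Helper80.AFp.SNum
import Pool.Agent.Helper83.AF.FX

/-! Project AF (MP_9ee088_an): from the interface `Lv` to the two properties on the whole space. -/

set_option autoImplicit false
open MeasureTheory Real Set Filter Topology

namespace Pool.Agent.Helper80.AFp

open Pool.Agent.Helper18.UC (nn LL rep)
open Pool.Agent.Helper46.QP (TT Td)

variable {d : ℕ}

/-- the pairs of parameters for the constant amplitude `a` and the force `b` -/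
def pr (a : ℝ) (b : Td d → ℝ) (θ : Td d) : ℝ × ℝ := (a, b θ)

/-- the same for a sequence -/
def prs (a : ℝ) (b : ℕ → ℝ) (j : ℕ) : ℝ × ℝ := (a, b j)

theorem stp_eq (a β : ℝ) (z : TT) : Pool.Agent.Helper23.AF.stp (a, β) z = Pool.Agent.Helper95.AF.tst a β z := by
  refine Prod.ext ?_ rfl
  show z.1 + z.1 - z.2 + (((((a : ℝ) : ℂ) * Pool.Agent.Helper46.QP.ee z.1).im : ℝ) : UnitAddCircle) +
      ((β : ℝ) : UnitAddCircle) =
    z.1 + z.1 - z.2 + ((a * (fourier 1 z.1 : ℂ).im + β : ℝ) : UnitAddCircle)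
  rw [Complex.im_ofReal_mul, AddCircle.coe_add, ← add_assoc]
  rfl

theorem Fs_eq (α : Td d) (a : ℝ) (b : Td d → ℝ) :
    Pool.Agent.Helper23.AF.Fs α (pr a b) = Pool.Agent.Helper95.AF.Fa α a b := by
  funext p
  unfold Pool.Agent.Helper23.AF.Fs Pool.Agent.Helper95.AF.Fa pr
  rw [stp_eq]

theorem sq_eq (α : Td d) (a : ℝ) (b : Td d → ℝ) (θ : Td d) :
    Pool.Agent.Helper23.AF.sq α (pr a b) θ = prs a (Pool.Agent.Helper82.AN.sq α b θ) := rfl

theorem po_eq (a : ℝ) (b : ℕ → ℝ) (n : ℕ) (q : ℝ × ℝ) :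
    Pool.Agent.Helper23.AF.po (prs a b) n q = Pool.Agent.Helper95.AF.po a b n q := by
  induction n with
  | zero => rfl
  | succ n ih =>
    show Pool.Agent.Helper23.AF.Fp (prs a b n) (Pool.Agent.Helper23.AF.po (prs a b) n q) = _
    rw [ih]
    rfl

theorem pM_eq (a : ℝ) (b : ℕ → ℝ) (n : ℕ) (q : ℝ × ℝ) :
    Pool.Agent.Helper23.AF.pM (prs a b) n q = Pool.Agent.Helper95.AF.pM a b n q := by
  induction n with
  | zero => rfl
  | succ n ih =>
    show Pool.Agent.Helper18.UC.A (prs a b n).1 (Pool.Agent.Helper23.AF.po (prs a b) n q) *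
      Pool.Agent.Helper23.AF.pM (prs a b) n q = _
    rw [ih, po_eq]
    rfl

theorem gN_eq (α : Td d) (a : ℝ) (b : Td d → ℝ) (n : ℕ) (p : Td d × TT) :
    Pool.Agent.Helper23.AF.gN α (pr a b) n p = Pool.Agent.Helper95.AF.gA α a b n p := by
  unfold Pool.Agent.Helper23.AF.gN Pool.Agent.Helper95.AF.gA
  rw [Pool.Agent.Helper23.AF.Mx_rep, sq_eq, pM_eq]

/-- from the interface to the result: the skew product is ergodic with only the characters of the base as eigenfunctions, the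
exponent along the fibres is a constant, at least `15/16 log |a|` -/
theorem fin_comp : ∃ A₂ : ℝ, 1 ≤ A₂ ∧ ∀ (d : ℕ) (α : Td d) (a : ℝ) (b : Td d → ℝ),
    (∀ k : Fin d → ℤ, k ≠ 0 → ∑ m, k m • α m ≠ 0) → A₂ ≤ |a| → Continuous b → Pool.Agent.Helper95.AF.Lv α a b →
      (∀ (ξ : ℂ) (h : Td d × TT → ℂ), Measurable h → (∀ᵐ p, h (Pool.Agent.Helper95.AF.Fa α a b p) = ξ * h p) →
        (∀ᵐ p, h p = 0) ∨ ∃ (k : Fin d → ℤ) (c : ℂ), fourier 1 (∑ m, k m • α m) = ξ ∧
          ∀ᵐ p : Td d × TT, h p = c * fourier 1 (∑ m, k m • p.1 m)) ∧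
      ∃ Λ : ℝ, 15 / 16 * Real.log |a| ≤ Λ ∧ Λ ≤ Real.log (2 * π * |a| + 4) ∧ ∀ᵐ θ : Td d, ∀ᵐ z : ℝ × ℝ,
        Tendsto (fun n : ℕ => Real.log ‖fderiv ℝ (Pool.Agent.Helper95.AF.po a (Pool.Agent.Helper82.AN.sq α b θ) n) z‖ / n)
          atTop (𝓝 Λ) := by
  obtain ⟨A₂, hA₂⟩ := Pool.Agent.Helper23.AF.num_ok_const
  refine ⟨max 10 A₂, (by norm_num : (1 : ℝ) ≤ 10).trans (le_max_left _ _), fun d α a b hind ha hb hLv => ?_⟩
  have ha10 : 10 ≤ |a| := (le_max_left _ _).trans ha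
  have hnum := hA₂ a ((le_max_right _ _).trans ha)
  have hlog : 0 < Real.log |a| := Real.log_pos (by linarith)
  have hf : Measurable (pr (d := d) a b) := measurable_const.prodMk hb.measurable
  have hLL : ∀ θ : Td d, LL (pr a b θ).1 ≤ LL a := fun θ => le_refl _
  obtain ⟨lam, hlm, hlb, hli, hlt, hlo⟩ := Pool.Agent.Helper23.AF.ex_lam (α := α) hf hLL
  have hli' : ∀ᵐ p, lam (Pool.Agent.Helper95.AF.Fa α a b p) = lam p := by
    rw [← Fs_eq]
    exact hli
  have hlt' : ∀ᵐ p, Tendsto (fun n : ℕ => Real.log (Pool.Agent.Helper95.AF.gA α a b n p) / n) atTop (𝓝 (lam p)) := by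
    filter_upwards [hlt] with p hp
    simp only [gN_eq] at hp
    exact hp
  have hlow := Pool.Agent.Helper83.AF.fin_exp hind ha10 hb hLv hlm hli' hlt'
  have hom : ∀ᵐ p, p ∈ Pool.Agent.Helper23.AF.om α (pr a b) (7 / 8 * Real.log |a|) := by
    filter_upwards [hlow, hlo (7 / 8 * Real.log |a|)] with p h1 h2
    exact h2.2 (by linarith)
  constructor
  · intro ξ h hm hh
    rw [← Fs_eq] at hh
    rcases Pool.Agent.Helper23.AF.eig_om hind hf hLL hnum ξ hm (hh.mono fun p hp _ => hp) with h0 | ⟨k, c, hk, hc⟩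
    · left
      filter_upwards [h0, hom] with p h1 h2
      exact h1 h2
    · right
      refine ⟨k, c, hk, ?_⟩
      filter_upwards [hc, hom] with p h1 h2
      exact h1 h2
  · obtain ⟨Λ, hΛ⟩ := Pool.Agent.Helper23.AF.lam_const hind hf hLL hnum hlm hli
    have hΛ' : ∀ᵐ p, lam p = Λ := by
      filter_upwards [hΛ, hom] with p h1 h2
      exact h1 h2
    obtain ⟨p, hp1, hp2⟩ := (hΛ'.and hlow).exists
    refine ⟨Λ, hp1 ▸ hp2, ?_, ?_⟩
    · have h3 := (hlb p).2
      rw [hp1] at h3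
      exact h3
    · have h4 : ∀ᵐ p : Td d × TT,
          Tendsto (fun n : ℕ => Real.log (Pool.Agent.Helper23.AF.gN α (pr a b) n p) / n) atTop (𝓝 Λ) := by
        filter_upwards [hlt, hΛ'] with p h5 h6
        rw [← h6]
        exact h5
      have h5 := Pool.Agent.Helper23.AF.lim_fd h4
      filter_upwards [h5] with θ hθ
      filter_upwards [hθ] with z hz
      have e : ∀ n : ℕ, Pool.Agent.Helper23.AF.po (Pool.Agent.Helper23.AF.sq α (pr a b) θ) n =
          Pool.Agent.Helper95.AF.po a (Pool.Agent.Helper82.AN.sq α b θ) n := fun n => funext fun q => po_eq a _ n q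
      simp only [e] at hz
      exact hz

end Pool.Agent.Helper80.AFp
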