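import Pool.Agent.Helper80.AFp.EigOm
import Pool.Agent.Helper46.QP.Link

/-! Port of `Helper82/AN/LimFd.lean`: the exponent of the lifts. -/

set_option autoImplicit false
open MeasureTheory Real Set Filter Topology

namespace Pool.Agent.Helper23.AF

open Pool.Agent.Helper18.UC (nn toT rep clm)
open Pool.Agent.Helper46.QP (TT Td)

variable {d : ℕ}

theorem po_fderiv (A : ℕ → ℝ × ℝ) (n : ℕ) (q : ℝ × ℝ) :
    nn (pM A n q) / 4 ≤ ‖fderiv ℝ (po A n) q‖ ∧ ‖fderiv ℝ (po A n) q‖ ≤ nn (pM A n q) := by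
  rw [(hasFDerivAt_po A n q).fderiv]
  have h1 := Pool.Agent.Helper18.UC.nn_le_clm (pM A n q)
  have h2 := Pool.Agent.Helper18.UC.norm_clm_le (pM A n q)
  have h3 := norm_nonneg (clm (pM A n q))
  exact ⟨by linarith, h2⟩

theorem po_lim {A : ℕ → ℝ × ℝ} {q : ℝ × ℝ} {L : ℝ}
    (h : Tendsto (fun n : ℕ => Real.log (nn (pM A n q)) / n) atTop (𝓝 L)) :
    Tendsto (fun n : ℕ => Real.log ‖fderiv ℝ (po A n) q‖ / n) atTop (𝓝 L) := by
  have h2 : Tendsto (fun n : ℕ => Real.log (nn (pM A n q)) / n - Real.log 4 / n) atTop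
      (𝓝 (L - 0)) := h.sub (tendsto_const_div_atTop_nhds_zero_nat _)
  rw [sub_zero] at h2
  have hpos : ∀ n, 0 < nn (pM A n q) := fun n => by
    have := two_le_pnn A n q
    linarith
  have key := fun n => po_fderiv A n q
  refine tendsto_of_tendsto_of_tendsto_of_le_of_le h2 h (fun n => ?_) (fun n => ?_)
  · change Real.log (nn (pM A n q)) / n - Real.log 4 / n ≤ Real.log ‖fderiv ℝ (po A n) q‖ / n
    rw [← sub_div]
    refine div_le_div_of_nonneg_right ?_ (Nat.cast_nonneg n)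
    rw [← Real.log_div (hpos n).ne' (by norm_num)]
    exact Real.log_le_log (div_pos (hpos n) (by norm_num)) (key n).1
  · change Real.log ‖fderiv ℝ (po A n) q‖ / n ≤ Real.log (nn (pM A n q)) / n
    refine div_le_div_of_nonneg_right ?_ (Nat.cast_nonneg n)
    exact Real.log_le_log (lt_of_lt_of_le (div_pos (hpos n) (by norm_num)) (key n).1) (key n).2

theorem lim_fd {α : Td d} {f : Td d → ℝ × ℝ} {Λ : ℝ}
    (h : ∀ᵐ p : Td d × TT, Tendsto (fun n : ℕ => Real.log (gN α f n p) / n) atTop (𝓝 Λ)) :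
    ∀ᵐ θ : Td d, ∀ᵐ z : ℝ × ℝ,
      Tendsto (fun n : ℕ => Real.log ‖fderiv ℝ (po (sq α f θ) n) z‖ / n) atTop (𝓝 Λ) := by
  have h2 := Measure.ae_ae_of_ae_prod h
  filter_upwards [h2] with θ hθ
  filter_upwards [Pool.Agent.Helper46.QP.ae_tor hθ] with z hz
  refine po_lim ?_
  have e : ∀ n : ℕ, nn (pM (sq α f θ) n z) = gN α f n (θ, Pool.Agent.Helper46.QP.tor z) := by
    intro n
    show _ = nn (Mx (sq α f θ) (toT z) n)
    rw [Mx_toT]
  simp only [e]
  exact hz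

end Pool.Agent.Helper23.AF
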