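import Pool.Agent.Helper80.AFp.SBas

/-! Block AN-SFAM (middle part of `h24_core` in `Helper18/UC/Strips.lean`, for sequences): the family of cells in one
fibre. `lev z` = least `k` with `1 / 2 ^ k ≤ B / nn (pM A n (rep z))`; at a hyperbolic time `nn (pM A n _) ≥ 2 (KL L B)^n`,
`KL L B ≥ 8 B`, so `lev z ≥ k0`; `exists_family` in `Helper18/UC/Cell.lean`. -/

set_option autoImplicit false
open MeasureTheory Real Set

namespace Pool.Agent.Helper23.AF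

open Pool.Agent.Helper18.UC (nn LL sh clm pt sqo lab rep toT cell)
open Pool.Agent.Helper46.QP (TT Td)

private lemma KL_ge_52 {A : ℕ → ℝ × ℝ} {L B : ℝ} (hA : Bd A L) (hB : 0 < B) : 8 * B ≤ KL L B := by
  have h1 := Bd_L4 hA
  have h2 : (2:ℝ) ≤ Real.sqrt L := by
    have h3 : (2:ℝ) = Real.sqrt 4 := by
      rw [show (4:ℝ) = 2 ^ 2 by norm_num, Real.sqrt_sq (by norm_num)]
    rw [h3]
    exact Real.sqrt_le_sqrt h1
  unfold KL
  nlinarith

private lemma lev_52 (A : ℕ → ℝ × ℝ) (B : ℝ) (hB : 0 < B) (n : ℕ) (z : TT) :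
    ∃ k : ℕ, 1 / 2 ^ k ≤ B / nn (pM A n (rep z)) := by
  have h1 : 0 < B / nn (pM A n (rep z)) := by
    have := two_le_pnn A n (rep z)
    exact div_pos hB (by linarith)
  obtain ⟨k, hk⟩ := exists_pow_lt_of_lt_one h1 (by norm_num : (1/2:ℝ) < 1)
  refine ⟨k, ?_⟩
  rw [one_div_pow] at hk
  exact hk.le

theorem fam_ex {A : ℕ → ℝ × ℝ} {L B : ℝ} (hA : Bd A L) (hB : 100 ≤ B) {n k0 : ℕ} (hn : k0 + 2 ≤ n) {E W : Set TT} {η : ℝ}
    (hW : ∀ z ∈ W, Hyp A L B n (rep z) ∧ ∀ k ≥ k0, volume (cell k z \ E) ≤ ENNReal.ofReal η * volume (cell k z)) :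
    ∃ 𝒬 : Set (Set TT), FamS A L B n E η 𝒬 ∧ W ⊆ ⋃₀ 𝒬 := by
  have hB0 : 0 < B := by linarith
  have hK8 := KL_ge_52 hA hB0
  classical
  set lev : TT → ℕ := fun z => Nat.find (lev_52 A B hB0 n z) with hlev
  obtain ⟨𝒬, hQc, hQd, hQ, hQu⟩ := Pool.Agent.Helper18.UC.exists_family W lev
  have hbig : ∀ z ∈ W, B * 2 ^ k0 < nn (pM A n (rep z)) := by
    intro z hz
    have h1 : Hyp A L B n (rep z) := (hW z hz).1
    have h2 := h1 0 (Nat.zero_le n)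
    have h20 := two_le_pnn A 0 (rep z)
    rw [Nat.sub_zero] at h2
    have h3 : (8 * B) ^ n ≤ KL L B ^ n := pow_le_pow_left₀ (by linarith) hK8 n
    have h4 : B * 2 ^ k0 ≤ (8 * B) ^ n := by
      obtain ⟨m, hm⟩ : ∃ m, n = m + 1 ∧ k0 ≤ m := ⟨n - 1, by omega, by omega⟩
      rw [hm.1, pow_succ]
      have h5 : (2:ℝ) ^ k0 ≤ (8 * B) ^ m :=
        (pow_le_pow_right₀ (by norm_num) hm.2).trans (pow_le_pow_left₀ (by norm_num) (by linarith) m)
      have h6 : (0:ℝ) < 2 ^ k0 := by positivity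
      have h7 : B ≤ 8 * B := by linarith
      calc B * 2 ^ k0 ≤ (8 * B) * (8 * B) ^ m := mul_le_mul h7 h5 h6.le (by linarith)
        _ = (8 * B) ^ m * (8 * B) := mul_comm _ _
    have h8 : 0 < (8 * B) ^ n := by positivity
    have h9 : (8 * B) ^ n * 2 ≤ KL L B ^ n * nn (pM A 0 (rep z)) :=
      mul_le_mul h3 h20 (by norm_num) (h8.le.trans h3)
    linarith
  have hspec : ∀ z ∈ W, Fit A L B n (lev z) z ∧ k0 ≤ lev z := by
    intro z hz
    have h1 : (1:ℝ) / 2 ^ (lev z) ≤ B / nn (pM A n (rep z)) := Nat.find_spec (lev_52 A B hB0 n z)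
    have h2 : ∀ m < lev z, ¬ ((1:ℝ) / 2 ^ m ≤ B / nn (pM A n (rep z))) := fun m hm =>
      Nat.find_min (lev_52 A B hB0 n z) hm
    have h3 := hbig z hz
    have hnn : 0 < nn (pM A n (rep z)) := by
      have := two_le_pnn A n (rep z)
      linarith
    have h4 : k0 < lev z := by
      by_contra hcon
      rw [not_lt] at hcon
      have h5 : (1:ℝ) / 2 ^ k0 ≤ 1 / 2 ^ (lev z) :=
        one_div_le_one_div_of_le (by positivity) (pow_le_pow_right₀ (by norm_num) hcon)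
      have h6 : (1:ℝ) / 2 ^ k0 ≤ B / nn (pM A n (rep z)) := h5.trans h1
      rw [div_le_div_iff₀ (by positivity) hnn] at h6
      linarith
    refine ⟨⟨(hW z hz).1, ?_, h1, by omega⟩, h4.le⟩
    obtain ⟨m, hm⟩ : ∃ m, lev z = m + 1 := ⟨lev z - 1, by omega⟩
    have h7 := h2 m (by omega)
    rw [not_le] at h7
    rw [hm, pow_succ]
    have h8 : B / (2 * nn (pM A n (rep z))) = B / nn (pM A n (rep z)) / 2 := by
      rw [mul_comm, div_div]
    have h9 : (1:ℝ) / (2 ^ m * 2) = 1 / 2 ^ m / 2 := by rw [div_div]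
    rw [h8, h9]
    linarith
  refine ⟨𝒬, ⟨hQc, hQd, ?_, ?_⟩, hQu⟩
  · intro Q hQQ
    obtain ⟨z, hz, hQz⟩ := hQ Q hQQ
    exact ⟨lev z, z, hQz, (hspec z hz).1⟩
  · intro Q hQQ
    obtain ⟨z, hz, hQz⟩ := hQ Q hQQ
    rw [hQz]
    exact (hW z hz).2 (lev z) (hspec z hz).2

theorem FamS_congr {A A' : ℕ → ℝ × ℝ} {L B : ℝ} {n : ℕ} (h : ∀ j < n, A j = A' j) {E : Set TT} {η : ℝ} {𝒬 : Set (Set TT)}
    (hQ : FamS A L B n E η 𝒬) : FamS A' L B n E η 𝒬 := by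
  have hpM : ∀ i ≤ n, ∀ q, pM A i q = pM A' i q := fun i hi q =>
    pM_congr (fun j hj => h j (lt_of_lt_of_le hj hi)) q
  have hFit : ∀ (κ : ℕ) (z : TT), Fit A L B n κ z → Fit A' L B n κ z := by
    rintro κ z ⟨h1, h2, h3, h4⟩
    refine ⟨?_, ?_, ?_, h4⟩
    · intro i hi
      have h5 := h1 i hi
      rwa [hpM i hi, hpM n le_rfl] at h5
    · rwa [hpM n le_rfl] at h2
    · rwa [hpM n le_rfl] at h3
  obtain ⟨h1, h2, h3, h4⟩ := hQ
  refine ⟨h1, h2, fun Q hQ => ?_, h4⟩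
  obtain ⟨κ, z, hz, hf⟩ := h3 Q hQ
  exact ⟨κ, z, hz, hFit κ z hf⟩

end Pool.Agent.Helper23.AF
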