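import Pool.Agent.Helper80.AFp.SPos

/-! Block AN-SEIG: eigenfunctions on `om` depend only on the base point.

First `|ξ| = 1` and `h` bounded. Torus `Td (d + 1)` with `α' = Fin.cons t₀ α`, `fourier 1 t₀ = conj ξ`, `f' θ' = f (Fin.tail θ')`;
`om α' f' c = {p | (tail p.1, p.2) ∈ om α f c}`. `H (θ', z) = fourier 1 (θ' 0) * h (tail θ', z)` satisfies `H ∘ F' = H` a.e. on `om α' f' c`. For every ball `D` with rational centre and radius the
set `{p ∈ om α' f' c | H p ∈ D}` is invariant up to a null set; take a strictly invariant version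
(`MeasureTheory.QuasiMeasurePreserving.exists_preimage_eq_of_preimage_ae`, intersected with `om`) and apply `nul_full`: for a.e. `θ'` it is null or full in the fibre of
`om`, for all `D` at once; so `H (θ', ·)` is a.e. constant on the fibre. `measure preserving: Fin.cons / tail` (`MeasurableEquiv.piFinSuccAbove`,
`volume_preserving_piFinSuccAbove`), so for a.e. `θ` the function `h (θ, ·)` is a.e. constant on the fibre of `om`; `u θ = (∫ over the fibre of h) / volume of the
fibre` is measurable. -/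

set_option autoImplicit false
open MeasureTheory Real Set Filter

namespace Pool.Agent.Helper23.AF

open Pool.Agent.Helper18.UC (nn LL sh clm pt sqo lab rep toT cell)
open Pool.Agent.Helper46.QP (TT Td)

variable {d : ℕ}

/-! ### one more circle -/

private lemma tail_nsmul62 (t : UnitAddCircle) (α : Td d) (θ : Td (d + 1)) (j : ℕ) :
    (Fin.tail (θ + j • (Fin.cons t α : Td (d + 1))) : Td d) = Fin.tail θ + j • α := by
  funext i
  simp [Fin.tail]

private lemma sq_tail62 (t : UnitAddCircle) (α : Td d) (f : Td d → ℝ × ℝ) (θ : Td (d + 1)) :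
    sq (Fin.cons t α : Td (d + 1)) (fun θ' => f (Fin.tail θ')) θ = sq α f (Fin.tail θ) := by
  funext j
  unfold sq
  simp only [tail_nsmul62]

private lemma gN_tail62 (t : UnitAddCircle) (α : Td d) (f : Td d → ℝ × ℝ) (n : ℕ) (p : Td (d + 1) × TT) :
    gN (Fin.cons t α : Td (d + 1)) (fun θ' => f (Fin.tail θ')) n p = gN α f n (Fin.tail p.1, p.2) := by
  unfold gN
  rw [sq_tail62]

private lemma om_tail62 (t : UnitAddCircle) (α : Td d) (f : Td d → ℝ × ℝ) (c : ℝ) (p : Td (d + 1) × TT) :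
    p ∈ om (Fin.cons t α : Td (d + 1)) (fun θ' => f (Fin.tail θ')) c ↔ ((Fin.tail p.1, p.2) : Td d × TT) ∈ om α f c := by
  unfold om
  simp only [Set.mem_ofPred_eq, gN_tail62]

private lemma Fs_tail62 (t : UnitAddCircle) (α : Td d) (f : Td d → ℝ × ℝ) (p : Td (d + 1) × TT) :
    ((Fin.tail (Fs (Fin.cons t α : Td (d + 1)) (fun θ' => f (Fin.tail θ')) p).1,
      (Fs (Fin.cons t α : Td (d + 1)) (fun θ' => f (Fin.tail θ')) p).2) : Td d × TT) = Fs α f (Fin.tail p.1, p.2) := by
  unfold Fs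
  refine Prod.ext ?_ rfl
  have := tail_nsmul62 t α p.1 1
  simpa using this

/-- tail and projection -/
private lemma tail_mp62 : MeasurePreserving (fun θ : Td (d + 1) => (Fin.tail θ : Td d)) volume volume := by
  have h1 := volume_preserving_piFinSuccAbove (fun _ : Fin (d + 1) => UnitAddCircle) 0
  have h2 : MeasurePreserving (Prod.snd : UnitAddCircle × (Fin d → UnitAddCircle) → (Fin d → UnitAddCircle))
      (volume : Measure (UnitAddCircle × (Fin d → UnitAddCircle))) volume := measurePreserving_snd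
  exact h2.comp h1

private lemma pr_mp62 : MeasurePreserving (fun p : Td (d + 1) × TT => ((Fin.tail p.1, p.2) : Td d × TT)) volume volume :=
  tail_mp62.prod (MeasurePreserving.id _)

/-- a property of the tail which holds almost everywhere -/
private lemma ae_tail62 {P : Td d → Prop} (h : ∀ᵐ θ : Td (d + 1), P (Fin.tail θ)) : ∀ᵐ θ : Td d, P θ := by
  have h1 := (volume_preserving_piFinSuccAbove (fun _ : Fin (d + 1) => UnitAddCircle) 0).symm
  have h2 := h1.quasiMeasurePreserving.ae h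
  have h3 := Measure.ae_ae_of_ae_prod (p := fun q : UnitAddCircle × (Fin d → UnitAddCircle) =>
    P (Fin.tail ((MeasurableEquiv.piFinSuccAbove (fun _ : Fin (d + 1) => UnitAddCircle) 0).symm q))) h2
  obtain ⟨t, ht⟩ := h3.exists
  filter_upwards [ht] with θ hθ
  exact hθ

/-- one set -/
private lemma one_set62 {α : Td d} {f : Td d → ℝ × ℝ} (hf : Measurable f) {L B c : ℝ} (hA : ∀ θ, LL (f θ).1 ≤ L)
    (hN : Num L B c) {H : Td d × TT → ℂ} (hH : Measurable H)
    (heq : ∀ᵐ p, p ∈ om α f c → H (Fs α f p) = H p) {D : Set ℂ} (hD : MeasurableSet D) :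
    ∀ᵐ θ : Td d, (∀ᵐ z : TT, (θ, z) ∈ om α f c → H (θ, z) ∈ D) ∨ (∀ᵐ z : TT, (θ, z) ∈ om α f c → H (θ, z) ∉ D) := by
  have hom := meas_om (α := α) hf c
  have hinv := om_inv (α := α) hA c
  have hmp := Fs_mp (α := α) hf
  set S : Set (Td d × TT) := om α f c ∩ H ⁻¹' D with hS
  have hSm : MeasurableSet S := hom.inter (hH hD)
  have hSae : Fs α f ⁻¹' S =ᵐ[volume] S := by
    have : ∀ᵐ p : Td d × TT, (p ∈ Fs α f ⁻¹' S) = (p ∈ S) := by
      filter_upwards [heq] with p hp
      have e1 : (Fs α f p ∈ om α f c) ↔ p ∈ om α f c := by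
        have : p ∈ Fs α f ⁻¹' om α f c ↔ p ∈ om α f c := by rw [hinv]
        exact this
      refine propext ⟨fun h => ?_, fun h => ?_⟩
      · have h1 := e1.1 h.1
        refine ⟨h1, ?_⟩
        have h2 : H (Fs α f p) ∈ D := h.2
        rwa [hp h1] at h2
      · refine ⟨e1.2 h.1, ?_⟩
        show H (Fs α f p) ∈ D
        rw [hp h.1]
        exact h.2
    exact this
  obtain ⟨E, hEm, hES, hEi⟩ :=
    hmp.quasiMeasurePreserving.exists_preimage_eq_of_preimage_ae hSm.nullMeasurableSet hSae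
  have hE1 : Fs α f ⁻¹' (om α f c ∩ E) = om α f c ∩ E := by
    rw [preimage_inter, hinv, hEi]
  have h1 := nul_full hf hA hN (hom.inter hEm) inter_subset_left hE1
  have h2 : ∀ᵐ p : Td d × TT, (p ∈ E) = (p ∈ S) := hES
  have h3 := Measure.ae_ae_of_ae_prod (p := fun p : Td d × TT => (p ∈ E) = (p ∈ S)) h2
  filter_upwards [h1, h3] with θ k1 k2
  rcases k1 with k1 | k1
  · right
    have k3 : ∀ᵐ z : TT, ¬ ((θ, z) ∈ om α f c ∩ E) := by
      rw [ae_iff]
      simpa using k1
    filter_upwards [k2, k3] with z hz hz' ho hd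
    apply hz'
    refine ⟨ho, ?_⟩
    rw [hz]
    exact ⟨ho, hd⟩
  · left
    have k3 : ∀ᵐ z : TT, ¬ ((θ, z) ∈ om α f c \ (om α f c ∩ E)) := by
      rw [ae_iff]
      simpa using k1
    filter_upwards [k2, k3] with z hz hz' ho
    by_contra hd
    apply hz'
    refine ⟨ho, fun h => ?_⟩
    have := h.2
    rw [hz] at this
    exact hd this.2

/-- an invariant function is constant on almost every fibre -/
private lemma inv_const62 {α : Td d} {f : Td d → ℝ × ℝ} (hf : Measurable f) {L B c : ℝ} (hA : ∀ θ, LL (f θ).1 ≤ L)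
    (hN : Num L B c) {H : Td d × TT → ℂ} (hH : Measurable H)
    (heq : ∀ᵐ p, p ∈ om α f c → H (Fs α f p) = H p) :
    ∀ᵐ θ : Td d, ∃ w : ℂ, ∀ᵐ z : TT, (θ, z) ∈ om α f c → H (θ, z) = w := by
  obtain ⟨S, hSc, hSm, hSs⟩ := exists_countable_separating ℂ MeasurableSet univ
  have h1 : ∀ᵐ θ : Td d, ∀ D ∈ S, (∀ᵐ z : TT, (θ, z) ∈ om α f c → H (θ, z) ∈ D) ∨
      (∀ᵐ z : TT, (θ, z) ∈ om α f c → H (θ, z) ∉ D) :=
    (ae_ball_iff hSc).2 fun D hD => one_set62 hf hA hN hH heq (hSm D hD)
  have hom := meas_om (α := α) hf c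
  filter_upwards [h1] with θ hθ
  have hfm : MeasurableSet {z : TT | (θ, z) ∈ om α f c} := measurable_prodMk_left hom
  have : HasCountableSeparatingOn ℂ (fun D => D ∈ S) univ := ⟨⟨S, hSc, fun s hs => hs, hSs⟩⟩
  have h2 : ∀ U, U ∈ S →
      (∀ᶠ z in ae ((volume : Measure TT).restrict {z : TT | (θ, z) ∈ om α f c}), (fun z => H (θ, z)) z ∈ U) ∨
      (∀ᶠ z in ae ((volume : Measure TT).restrict {z : TT | (θ, z) ∈ om α f c}), (fun z => H (θ, z)) z ∉ U) := by
    intro U hU
    rcases hθ U hU with h | h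
    · left
      exact (ae_restrict_iff' hfm).2 h
    · right
      exact (ae_restrict_iff' hfm).2 h
  obtain ⟨w, hw⟩ := Filter.exists_eventuallyEq_const_of_forall_separating (fun D => D ∈ S) h2
  refine ⟨w, ?_⟩
  have h3 := (ae_restrict_iff' hfm).1 hw
  exact h3

theorem eig_fib {α : Td d} {f : Td d → ℝ × ℝ} (hf : Measurable f) {L B c : ℝ} (hA : ∀ θ, LL (f θ).1 ≤ L) (hN : Num L B c)
    {ξ : ℂ} (hξ : ‖ξ‖ = 1) {h : Td d × TT → ℂ} (hh : Measurable h) (hb : ∃ K : ℝ, ∀ p, ‖h p‖ ≤ K)
    (heq : ∀ᵐ p, p ∈ om α f c → h (Fs α f p) = ξ * h p) :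
    ∃ u : Td d → ℂ, Measurable u ∧ ∀ᵐ p : Td d × TT, p ∈ om α f c → h p = u p.1 := by
  have hom := meas_om (α := α) hf c
  -- the rotation by `ξ⁻¹`
  obtain ⟨t₀, ht₀⟩ : ∃ t : UnitAddCircle, (fourier 1 t : ℂ) * ξ = 1 := by
    have hξ0 : ξ ≠ 0 := by
      intro h0
      rw [h0, norm_zero] at hξ
      exact zero_ne_one hξ
    refine ⟨((-(Complex.arg ξ) / (2 * π) : ℝ) : UnitAddCircle), ?_⟩
    rw [fourier_coe_apply]
    have h1 : ξ = Complex.exp (Complex.arg ξ * Complex.I) := by
      have := Complex.norm_mul_exp_arg_mul_I ξ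
      rw [hξ] at this
      simpa using this.symm
    conv_lhs => rw [h1]
    have h2 : Complex.arg (Complex.exp (Complex.arg ξ * Complex.I)) = Complex.arg ξ := by rw [← h1]
    rw [h2, ← Complex.exp_add]
    have hpi : (π : ℂ) ≠ 0 := by exact_mod_cast Real.pi_ne_zero
    have h3 : 2 * (π : ℂ) * Complex.I * ((1 : ℤ) : ℂ) * ((-(Complex.arg ξ) / (2 * π) : ℝ) : ℂ) / ((1 : ℝ) : ℂ) +
        Complex.arg ξ * Complex.I = 0 := by
      push_cast
      field_simp
      ring
    rw [h3, Complex.exp_zero]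
  set α' : Td (d + 1) := (Fin.cons t₀ α : Td (d + 1)) with hα'
  set f' : Td (d + 1) → ℝ × ℝ := fun θ' => f (Fin.tail θ') with hf'
  have hf'm : Measurable f' := hf.comp tail_mp62.measurable
  have hA' : ∀ θ, LL (f' θ).1 ≤ L := fun θ => hA _
  set H : Td (d + 1) × TT → ℂ := fun p => (fourier 1 (p.1 0) : ℂ) * h (Fin.tail p.1, p.2) with hH
  have hfm : Measurable fun x : UnitAddCircle => (fourier 1 x : ℂ) := (ContinuousMap.continuous (fourier 1)).measurable
  have hHm : Measurable H := by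
    refine Measurable.mul (hfm.comp ((measurable_pi_apply 0).comp measurable_fst)) (hh.comp pr_mp62.measurable)
  have hHe : ∀ᵐ p, p ∈ om α' f' c → H (Fs α' f' p) = H p := by
    have h1 := pr_mp62.quasiMeasurePreserving.ae heq
    filter_upwards [h1] with p hp ho
    have h2 := (om_tail62 t₀ α f c p).1 ho
    have h3 := hp h2
    have h4 := Fs_tail62 t₀ α f p
    show (fourier 1 ((Fs α' f' p).1 0) : ℂ) * h (Fin.tail (Fs α' f' p).1, (Fs α' f' p).2) = _
    rw [h4, h3]
    have h5 : (Fs α' f' p).1 0 = p.1 0 + t₀ := by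
      show (p.1 + α') 0 = _
      rw [Pi.add_apply, hα', Fin.cons_zero]
    rw [h5]
    have h6 : (fourier 1 (p.1 0 + t₀) : ℂ) = fourier 1 (p.1 0) * fourier 1 t₀ := by
      simp only [fourier_apply, smul_add, AddCircle.toCircle_add, Circle.coe_mul]
    rw [h6]
    show _ = (fourier 1 (p.1 0) : ℂ) * h (Fin.tail p.1, p.2)
    calc (fourier 1 (p.1 0) * fourier 1 t₀ : ℂ) * (ξ * h (Fin.tail p.1, p.2))
        = fourier 1 (p.1 0) * (fourier 1 t₀ * ξ) * h (Fin.tail p.1, p.2) := by ring
      _ = _ := by rw [ht₀, mul_one]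
  have h1 := inv_const62 hf'm hA' hN hHm hHe
  have h2 : ∀ᵐ θ' : Td (d + 1), ∃ w : ℂ, ∀ᵐ z : TT, ((Fin.tail θ', z) : Td d × TT) ∈ om α f c →
      h (Fin.tail θ', z) = w := by
    filter_upwards [h1] with θ' hθ
    obtain ⟨w, hw⟩ := hθ
    have hne : (fourier 1 (θ' 0) : ℂ) ≠ 0 := by
      rw [fourier_apply]
      exact Circle.coe_ne_zero _
    refine ⟨(fourier 1 (θ' 0) : ℂ)⁻¹ * w, ?_⟩
    filter_upwards [hw] with z hz ho
    have h3 := hz ((om_tail62 t₀ α f c (θ', z)).2 ho)
    rw [← h3]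
    show _ = (fourier 1 (θ' 0) : ℂ)⁻¹ * ((fourier 1 (θ' 0) : ℂ) * h (Fin.tail θ', z))
    rw [← mul_assoc, inv_mul_cancel₀ hne, one_mul]
  have h3 : ∀ᵐ θ : Td d, ∃ w : ℂ, ∀ᵐ z : TT, ((θ, z) : Td d × TT) ∈ om α f c → h (θ, z) = w :=
    ae_tail62 (P := fun θ => ∃ w : ℂ, ∀ᵐ z : TT, ((θ, z) : Td d × TT) ∈ om α f c → h (θ, z) = w) h2
  -- the mean over the fibre
  set g : Td d × TT → ℂ := (om α f c).indicator h with hg
  have hgm : Measurable g := hh.indicator hom
  set u : Td d → ℂ := fun θ => (∫ z : TT, g (θ, z)) / (volume.real {z : TT | (θ, z) ∈ om α f c} : ℂ) with hu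
  have hum : Measurable u := by
    refine Measurable.div ?_ ?_
    · exact (StronglyMeasurable.integral_prod_right' (ν := (volume : Measure TT)) hgm.stronglyMeasurable).measurable
    · refine Complex.measurable_ofReal.comp ?_
      exact (measurable_measure_prodMk_left (ν := (volume : Measure TT)) hom).ennreal_toReal
  refine ⟨u, hum, ?_⟩
  have hset : MeasurableSet {p : Td d × TT | p ∈ om α f c → h p = u p.1} := by
    have e : {p : Td d × TT | p ∈ om α f c → h p = u p.1} = (om α f c)ᶜ ∪ {p | h p = u p.1} := by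
      ext p
      simp only [Set.mem_ofPred_eq, mem_union, mem_compl_iff]
      tauto
    rw [e]
    exact hom.compl.union (measurableSet_eq_fun hh (hum.comp measurable_fst))
  rw [show (volume : Measure (Td d × TT)) = (volume : Measure (Td d)).prod (volume : Measure TT) from rfl,
    Measure.ae_prod_iff_ae_ae hset]
  filter_upwards [h3] with θ hθ
  obtain ⟨w, hw⟩ := hθ
  have hfib : MeasurableSet {z : TT | (θ, z) ∈ om α f c} := measurable_prodMk_left hom
  by_cases h0 : volume {z : TT | (θ, z) ∈ om α f c} = 0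
  · have : ∀ᵐ z : TT, ¬ ((θ, z) ∈ om α f c) := by
      rw [ae_iff]
      simpa using h0
    filter_upwards [this] with z hz ho
    exact absurd ho hz
  · have h4 : ∫ z : TT, g (θ, z) = (volume.real {z : TT | (θ, z) ∈ om α f c} : ℂ) * w := by
      have e1 : (fun z : TT => g (θ, z)) =ᵐ[volume] {z : TT | (θ, z) ∈ om α f c}.indicator fun _ => w := by
        filter_upwards [hw] with z hz
        by_cases ho : (θ, z) ∈ om α f c
        · rw [hg, indicator_of_mem ho, indicator_of_mem (show z ∈ {z : TT | (θ, z) ∈ om α f c} from ho), hz ho]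
        · rw [hg, indicator_of_notMem ho, indicator_of_notMem (show z ∉ {z : TT | (θ, z) ∈ om α f c} from ho)]
      rw [integral_congr_ae e1, integral_indicator hfib, setIntegral_const, Complex.real_smul]
    have h5 : (volume.real {z : TT | (θ, z) ∈ om α f c} : ℂ) ≠ 0 := by
      have : volume.real {z : TT | (θ, z) ∈ om α f c} ≠ 0 :=
        (ENNReal.toReal_pos h0 (measure_ne_top _ _)).ne'
      exact_mod_cast this
    have h6 : u θ = w := by
      show (∫ z : TT, g (θ, z)) / _ = w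
      rw [h4, mul_comm, mul_div_assoc, div_self h5, mul_one]
    filter_upwards [hw] with z hz ho
    rw [hz ho, ← h6]

end Pool.Agent.Helper23.AF
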