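import Pool.Agent.Helper80.AFp.SDir
import Pool.Agent.Helper18.UC.Curve

/-! Block AN-SEXIST (port of `Helper18/UC/Exist.lean`, only `j = 0`, to sequences): for all labels `t`, `t'` the image at
time `n` of the line with label `t` of the square `Q` crosses the reflected image at time `n'` (for the reversed
sequence) of the line with label `t'` of the square `Q'`. (`curve_cross` of `UC/Curve.lean` can be used directly; the part
of UC about `j = 1`, `sin_expand`, is not needed, no hypothesis `10 ≤ |a|`.) -/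

set_option autoImplicit false
open MeasureTheory Real Set

namespace Pool.Agent.Helper23.AF

open Pool.Agent.Helper18.UC (nn LL sh clm pt sqo lab cor)

private theorem h47_kl_ge {L B : ℝ} (hL : 4 ≤ L) (hB : 100 ≤ B) : 800 ≤ KL L B := by
  unfold KL
  have h1 : 2 ≤ Real.sqrt L := by
    rw [show (2:ℝ) = Real.sqrt 4 by
      rw [show (4:ℝ) = 2 ^ 2 by norm_num]; exact (Real.sqrt_sq (by norm_num)).symm]
    exact Real.sqrt_le_sqrt hL
  nlinarith

private theorem h47_dist_sqo {c p q : ℝ × ℝ} {s : ℝ} (hq : q ∈ sqo c s) (hp : p ∈ sqo c s) :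
    dist q p ≤ s := by
  obtain ⟨⟨h1, h2⟩, h3, h4⟩ := hq
  obtain ⟨⟨h5, h6⟩, h7, h8⟩ := hp
  rw [Prod.dist_eq, Real.dist_eq, Real.dist_eq]
  refine max_le ?_ ?_ <;> rw [abs_le] <;> constructor <;> linarith

/-- The image of the line with label `t` (the first coordinate grows almost linearly). -/
private theorem h47_line_props {A : ℕ → ℝ × ℝ} {L B : ℝ} (hA : Bd A L) (hB : 100 ≤ B) {n : ℕ}
    {p : ℝ × ℝ} {k : Fin 2} {m : ℝ}
    (hG : Good A L B n p k m) {c : ℝ × ℝ} {s : ℝ} (hs1 : B / (2 * nn (pM A n p)) ≤ s)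
    (hs2 : s ≤ B / nn (pM A n p)) (hpc : p ∈ sqo c s) {t : ℝ}
    (ht : t ∈ Ioo (lab k c) (lab k c + s)) :
    ∃ u0 u1 : ℝ, u0 ≤ u1 ∧ (∀ σ ∈ Icc u0 u1, pt k t σ ∈ sqo c s) ∧
      (∀ σ ∈ Icc u0 u1, ∀ σ' ∈ Icc u0 u1,
        |(po A n (pt k t σ)).2 - (po A n (pt k t σ')).2| ≤
          (1 / 8) * |(po A n (pt k t σ)).1 - (po A n (pt k t σ')).1|) ∧
      11 ≤ |(po A n (pt k t u1)).1 - (po A n (pt k t u0)).1| := by
  have hL : 2 ≤ nn (pM A n p) := two_le_pnn A n p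
  set Λ := nn (pM A n p) with hΛ
  have hLp : 0 < Λ := by linarith
  have hs0 : 0 < s := lt_of_lt_of_le (by positivity) hs1
  have hK := h47_kl_ge (Bd_L4 hA) hB
  have hBp : 0 < B := by linarith
  obtain ⟨hm1, hm2, -⟩ := id hG
  rw [← hΛ] at hm1 hm2
  have hmem : ∀ σ ∈ Icc (cor k c) (cor k c + s / 2), pt k t σ ∈ sqo c s := by
    intro σ hσ
    rw [Pool.Agent.Helper18.UC.pt_mem_sqo_iff]
    exact ⟨⟨ht.1.le, ht.2⟩, hσ.1, by linarith [hσ.2]⟩
  have hdist : ∀ σ ∈ Icc (cor k c) (cor k c + s / 2), dist (pt k t σ) p ≤ B / nn (pM A n p) :=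
    fun σ hσ => (h47_dist_sqo (hmem σ hσ) hpc).trans hs2
  have hC : ∀ σ ∈ Icc (cor k c) (cor k c + s / 2), ∀ σ' ∈ Icc (cor k c) (cor k c + s / 2),
      |(po A n (pt k t σ)).1 - (po A n (pt k t σ')).1 - m * (σ - σ')| ≤
          (3 / 100) * (|m| * |σ - σ'|) := by
    intro σ hσ σ' hσ'
    have h1 := (gd_curve hA hB hG (hdist σ hσ) (hdist σ' hσ')).1
    have h2 : 3 / B ≤ 3 / 100 := by
      apply div_le_div_of_nonneg_left (by norm_num) (by norm_num) hB
    refine h1.trans ?_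
    rw [mul_assoc]
    exact mul_le_mul_of_nonneg_right h2 (by positivity)
  have hC' : ∀ σ ∈ Icc (cor k c) (cor k c + s / 2), ∀ σ' ∈ Icc (cor k c) (cor k c + s / 2),
      (97 / 100) * (|m| * |σ - σ'|) ≤ |(po A n (pt k t σ)).1 - (po A n (pt k t σ')).1| := by
    intro σ hσ σ' hσ'
    have h1 := hC σ hσ σ' hσ'
    have h2 : |m * (σ - σ')| = |m| * |σ - σ'| := abs_mul _ _
    have h3 := abs_sub_abs_le_abs_sub (m * (σ - σ'))
      ((po A n (pt k t σ)).1 - (po A n (pt k t σ')).1)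
    rw [abs_sub_comm (m * (σ - σ'))] at h3
    rw [h2] at h3
    linarith
  refine ⟨cor k c, cor k c + s / 2, by linarith, hmem, ?_, ?_⟩
  · intro σ hσ σ' hσ'
    have h1 := (gd_curve hA hB hG (hdist σ hσ) (hdist σ' hσ')).2
    have h2 : 5 / KL L B ≤ 5 / 800 := by
      apply div_le_div_of_nonneg_left (by norm_num) (by norm_num) hK
    have h3 := hC' σ hσ σ' hσ'
    have h4 : 0 ≤ |m| * |σ - σ'| := by positivity
    have h5 : (5 / KL L B) * |m| * |σ - σ'| ≤ 5 / 800 * (|m| * |σ - σ'|) := by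
      rw [mul_assoc]
      exact mul_le_mul_of_nonneg_right h2 h4
    linarith
  · have h1 := hC' (cor k c + s / 2) ⟨by linarith, le_rfl⟩ (cor k c) ⟨le_rfl, by linarith⟩
    have h2 : |cor k c + s / 2 - cor k c| = s / 2 := by
      rw [add_sub_cancel_left, abs_of_pos (by linarith)]
    rw [h2] at h1
    have h3 : B / (2 * Λ) * Λ = B / 2 := by field_simp
    have h4 : B / 2 ≤ s * Λ := by
      rw [← h3]
      exact mul_le_mul_of_nonneg_right hs1 hLp.le
    have h5 : (49 / 100) * Λ * (s / 2) ≤ |m| * (s / 2) :=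
      mul_le_mul_of_nonneg_right hm1 (by linarith)
    nlinarith

private theorem h47_line_cont (A : ℕ → ℝ × ℝ) (n : ℕ) (k : Fin 2) (t : ℝ) :
    Continuous (fun u : ℝ => (po A n (pt k t u)).1) ∧
    Continuous (fun u : ℝ => (po A n (pt k t u)).2) :=
  ⟨continuous_iff_continuousAt.2 fun s => (hasDerivAt_ln A n k t s).1.continuousAt,
    continuous_iff_continuousAt.2 fun s => (hasDerivAt_ln A n k t s).2.continuousAt⟩

theorem cross_ex {A : ℕ → ℝ × ℝ} {L B : ℝ} (hA : Bd A L) (hB : 100 ≤ B) {n n' : ℕ} {p p' : ℝ × ℝ} {k k' : Fin 2} {m m' : ℝ}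
    (hG : Good A L B n p k m) (hG' : Good (rv A (n + n')) L B n' p' k' m')
    {c c' : ℝ × ℝ} {s s' : ℝ} (hs1 : B / (2 * nn (pM A n p)) ≤ s) (hs2 : s ≤ B / nn (pM A n p))
    (hpc : p ∈ sqo c s) (hs1' : B / (2 * nn (pM (rv A (n + n')) n' p')) ≤ s')
    (hs2' : s' ≤ B / nn (pM (rv A (n + n')) n' p')) (hpc' : p' ∈ sqo c' s') {t t' : ℝ}
    (ht : t ∈ Ioo (lab k c) (lab k c + s)) (ht' : t' ∈ Ioo (lab k' c') (lab k' c' + s')) :
    ∃ σ σ' : ℝ, pt k t σ ∈ sqo c s ∧ pt k' t' σ' ∈ sqo c' s' ∧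
      ∃ u w : ℤ, po A n (pt k t σ) = sh (Prod.swap (po (rv A (n + n')) n' (pt k' t' σ'))) u w := by
  obtain ⟨u0, u1, hu, hmem, hsl, hext⟩ := h47_line_props hA hB hG hs1 hs2 hpc ht
  obtain ⟨r0, r1, hr, hmem', hsl', hext'⟩ :=
    h47_line_props (Bd_rv hA (n + n')) hB hG' hs1' hs2' hpc' ht'
  obtain ⟨hcX, hcY⟩ := h47_line_cont A n k t
  obtain ⟨hcX', hcY'⟩ := h47_line_cont (rv A (n + n')) n' k' t'
  obtain ⟨σ, hσ, r, hr', u, w, h1, h2⟩ := Pool.Agent.Helper18.UC.curve_cross hu hr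
    hcX.continuousOn hcY.continuousOn hcY'.continuousOn hcX'.continuousOn (by linarith) hsl
    (by linarith) hsl'
  exact ⟨σ, r, hmem σ hσ, hmem' r hr', u, w, Prod.ext h1 h2⟩

end Pool.Agent.Helper23.AF
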