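import Pool.Agent.Helper80.AFp.SMx
import Pool.Agent.Helper18.SD.King

/-! Block AN-SEXPO (compare `Helper18/UC/Expo.lean`, `lyaR` in `Helper46/QR/LyaR.lean` and `Helper46/QP/Soft.lean` for the use
of Kingman's theorem `Helper18/SD/King.lean`): the Lyapunov exponent along the fibres.

`log (gN α f (n + m) p) ≤ log (gN α f n p) + log (gN α f m (F^n p))` (`Mx_add`, `nn_mul`, `Fs_iter`, `sq_add`), `0 ≤ log gN`, `gN ≥ 2`
(`nn_ge_two`, `det_Mx`). `lam_mean`: dominated convergence. `lam_le`: `log (gN n) ≤ ∑_{j < n} log (gN 1) ∘ F^j`, integrate over the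
invariant set `E`. -/

set_option autoImplicit false
open MeasureTheory Real Set Filter Topology

namespace Pool.Agent.Helper23.AF

open Pool.Agent.Helper18.UC (nn LL sh clm pt sqo lab rep toT cell)
open Pool.Agent.Helper46.QP (TT Td)

variable {d : ℕ}

private theorem gN_ge36 (α : Td d) (f : Td d → ℝ × ℝ) (n : ℕ) (p : Td d × TT) : 2 ≤ gN α f n p :=
  Pool.Agent.Helper95.PV.nn_ge_two (det_Mx _ _ _)

private theorem gN_pos36 (α : Td d) (f : Td d → ℝ × ℝ) (n : ℕ) (p : Td d × TT) : 0 < gN α f n p := by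
  linarith [gN_ge36 α f n p]

private theorem logg36 (α : Td d) (f : Td d → ℝ × ℝ) (n : ℕ) (p : Td d × TT) :
    0 ≤ Real.log (gN α f n p) :=
  Real.log_nonneg (by linarith [gN_ge36 α f n p])

private theorem L_ge36 {f : Td d → ℝ × ℝ} {L : ℝ} (hA : ∀ θ, LL (f θ).1 ≤ L) : 4 ≤ L := by
  have h := hA 0
  unfold Pool.Agent.Helper18.UC.LL at h
  have : 0 ≤ 2 * π * |(f 0).1| := by positivity
  linarith

private theorem log_le36 (α : Td d) {f : Td d → ℝ × ℝ} {L : ℝ} (hA : ∀ θ, LL (f θ).1 ≤ L) (n : ℕ)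
    (p : Td d × TT) : Real.log (gN α f n p) ≤ Real.log 2 + n * Real.log L := by
  exact log_Mx_le (fun j => hA (p.1 + j • α)) p.2 n

/-- the cocycle of the logarithms -/
private noncomputable def g36 (α : Td d) (f : Td d → ℝ × ℝ) (n : ℕ) (p : Td d × TT) : ℝ :=
  if n = 0 then 0 else Real.log (gN α f n p)

private theorem g36_pos {α : Td d} {f : Td d → ℝ × ℝ} {n : ℕ} (hn : n ≠ 0) (p : Td d × TT) :
    g36 α f n p = Real.log (gN α f n p) := by
  unfold g36
  rw [if_neg hn]

private theorem g36_meas {α : Td d} {f : Td d → ℝ × ℝ} (hf : Measurable f) (n : ℕ) :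
    Measurable (g36 α f n) := by
  unfold g36
  by_cases hn : n = 0
  · simp only [hn, if_true]
    exact measurable_const
  · simp only [hn, if_false]
    exact (meas_gN hf n).log

private theorem g36_abs (α : Td d) {f : Td d → ℝ × ℝ} {L : ℝ} (hA : ∀ θ, LL (f θ).1 ≤ L) (n : ℕ)
    (p : Td d × TT) : |g36 α f n p| ≤ (Real.log 2 + Real.log L) * n := by
  by_cases hn : n = 0
  · subst hn
    simp [g36]
  · rw [g36_pos hn, abs_of_nonneg (logg36 α f n p)]
    refine (log_le36 α hA n p).trans ?_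
    have hn1 : (1 : ℝ) ≤ n := by exact_mod_cast Nat.one_le_iff_ne_zero.2 hn
    have h3 : 0 ≤ Real.log 2 := Real.log_nonneg one_le_two
    nlinarith

private theorem sub36 (α : Td d) (f : Td d → ℝ × ℝ) (n m : ℕ) (p : Td d × TT) :
    Real.log (gN α f (n + m) p) ≤ Real.log (gN α f n p) + Real.log (gN α f m ((Fs α f)^[n] p)) := by
  obtain ⟨θ, z⟩ := p
  rw [Fs_iter, ← Real.log_mul (gN_pos36 α f n _).ne' (gN_pos36 α f m _).ne']
  refine Real.log_le_log (gN_pos36 _ _ _ _) ?_
  unfold gN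
  simp only
  rw [Mx_add, ← sq_add, mul_comm (nn (Mx (sq α f θ) z n))]
  exact Pool.Agent.Helper18.UC.nn_mul _ _

private theorem g36_sub (α : Td d) (f : Td d → ℝ × ℝ) (n m : ℕ) (p : Td d × TT) :
    g36 α f (n + m) p ≤ g36 α f n p + g36 α f m ((Fs α f)^[n] p) := by
  by_cases hn : n = 0
  · subst hn
    simp [g36]
  by_cases hm : m = 0
  · subst hm
    simp [g36]
  rw [g36_pos hn, g36_pos hm, g36_pos (by omega)]
  exact sub36 α f n m p

theorem ex_lam {α : Td d} {f : Td d → ℝ × ℝ} (hf : Measurable f) {L : ℝ} (hA : ∀ θ, LL (f θ).1 ≤ L) :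
    ∃ lam : Td d × TT → ℝ, Measurable lam ∧ (∀ p, 0 ≤ lam p ∧ lam p ≤ Real.log L) ∧
      (∀ᵐ p, lam (Fs α f p) = lam p) ∧
      (∀ᵐ p, Tendsto (fun n : ℕ => Real.log (gN α f n p) / n) atTop (𝓝 (lam p))) ∧
      ∀ c : ℝ, ∀ᵐ p, p ∈ om α f c ↔ c < lam p := by
  have hL := L_ge36 hA
  have hlL : 0 ≤ Real.log L := Real.log_nonneg (by linarith)
  obtain ⟨G, h1, -, h3, h4, -⟩ := Pool.Agent.Helper18.SD.kingman_bdd (Fs_mp (α := α) hf)
    (g36_meas (α := α) hf) (g36_abs α hA) (g36_sub α f)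
  have h5 : ∀ᵐ p : Td d × TT, Tendsto (fun n : ℕ => Real.log (gN α f n p) / n) atTop (𝓝 (G p)) := by
    filter_upwards [h4] with p hp
    refine hp.congr' ?_
    filter_upwards [eventually_ne_atTop 0] with n hn
    rw [g36_pos hn]
  have h6 : ∀ᵐ p : Td d × TT, 0 ≤ G p ∧ G p ≤ Real.log L := by
    filter_upwards [h5] with p hp
    refine ⟨ge_of_tendsto' hp fun n => div_nonneg (logg36 α f n p) (Nat.cast_nonneg n), ?_⟩
    have ht : Tendsto (fun n : ℕ => Real.log 2 / n + Real.log L) atTop (𝓝 (0 + Real.log L)) :=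
      (tendsto_const_div_atTop_nhds_zero_nat _).add_const _
    rw [zero_add] at ht
    refine le_of_tendsto_of_tendsto hp ht ?_
    filter_upwards [eventually_gt_atTop 0] with n hn
    have hn0 : (0 : ℝ) < n := by exact_mod_cast hn
    rw [div_add' _ _ _ hn0.ne', div_le_div_iff_of_pos_right hn0]
    have := log_le36 α hA n p
    linarith
  have h7 : ∀ᵐ p : Td d × TT, max 0 (min (G p) (Real.log L)) = G p := by
    filter_upwards [h6] with p hp
    rw [min_eq_left hp.2, max_eq_right hp.1]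
  refine ⟨fun p => max 0 (min (G p) (Real.log L)), measurable_const.max (h1.min measurable_const),
    fun p => ⟨le_max_left _ _, max_le hlL (min_le_right _ _)⟩, ?_, ?_, ?_⟩
  · filter_upwards [h3] with p hp
    rw [hp]
  · filter_upwards [h5, h7] with p hp hp2
    rw [hp2]
    exact hp
  · intro c
    filter_upwards [h5, h7] with p hp hp2
    rw [hp2]
    change c < _ ↔ _
    rw [hp.liminf_eq]

private theorem prob36 : IsProbabilityMeasure (volume : Measure (Td d × TT)) := by
  infer_instance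

private theorem bd36 (α : Td d) {f : Td d → ℝ × ℝ} {L : ℝ} (hA : ∀ θ, LL (f θ).1 ≤ L) {n : ℕ}
    (hn : n ≠ 0) (p : Td d × TT) : |Real.log (gN α f n p) / n| ≤ Real.log 2 + Real.log L := by
  have hn0 : (0 : ℝ) < n := by exact_mod_cast Nat.pos_of_ne_zero hn
  rw [abs_div, abs_of_pos hn0, div_le_iff₀ hn0, ← g36_pos hn]
  exact g36_abs α hA n p

/-- the integrals over any set converge -/
private theorem dom36 {α : Td d} {f : Td d → ℝ × ℝ} (hf : Measurable f) {L : ℝ}
    (hA : ∀ θ, LL (f θ).1 ≤ L) {lam : Td d × TT → ℝ}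
    (hl : ∀ᵐ p, Tendsto (fun n : ℕ => Real.log (gN α f n p) / n) atTop (𝓝 (lam p)))
    (E : Set (Td d × TT)) :
    Tendsto (fun n : ℕ => (∫ p in E, Real.log (gN α f (n + 1) p)) / ((n + 1 : ℕ) : ℝ)) atTop
      (𝓝 (∫ p in E, lam p)) := by
  have h := tendsto_integral_of_dominated_convergence (μ := volume.restrict E)
    (F := fun n : ℕ => fun p => Real.log (gN α f (n + 1) p) / ((n + 1 : ℕ) : ℝ)) (f := lam)
    (fun _ => Real.log 2 + Real.log L)
    (fun n => ((meas_gN hf (n + 1)).log.div_const _).aestronglyMeasurable)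
    (integrable_const _)
    (fun n => Eventually.of_forall fun p => bd36 α hA (Nat.succ_ne_zero n) p)
    (by
      filter_upwards [ae_restrict_of_ae hl] with p hp
      exact (tendsto_add_atTop_iff_nat 1).2 hp)
  refine h.congr fun n => ?_
  rw [integral_div]

theorem lam_mean {α : Td d} {f : Td d → ℝ × ℝ} (hf : Measurable f) {L : ℝ} (hA : ∀ θ, LL (f θ).1 ≤ L) {lam : Td d × TT → ℝ}
    (hl : ∀ᵐ p, Tendsto (fun n : ℕ => Real.log (gN α f n p) / n) atTop (𝓝 (lam p))) {x : ℝ}
    (hx : ∃ i₀ : ℕ, ∀ i ≥ i₀, x ≤ (∫ p, Real.log (gN α f (2 ^ i) p)) / 2 ^ i) : x ≤ ∫ p, lam p := by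
  obtain ⟨i₀, hx⟩ := hx
  have h := dom36 hf hA hl univ
  simp only [setIntegral_univ] at h
  have h2 : Tendsto (fun i : ℕ => (∫ p, Real.log (gN α f (2 ^ i) p)) / (2 : ℝ) ^ i) atTop
      (𝓝 (∫ p, lam p)) := by
    have h3 := (tendsto_add_atTop_iff_nat (f := fun n : ℕ =>
      (∫ p, Real.log (gN α f n p)) / (n : ℝ)) 1).1 h
    have h4 := h3.comp (tendsto_pow_atTop_atTop_of_one_lt (r := 2) one_lt_two)
    refine h4.congr fun i => ?_
    simp only [Function.comp]
    push_cast
    rfl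
  refine ge_of_tendsto h2 ?_
  filter_upwards [eventually_ge_atTop i₀] with i hi
  exact hx i hi

private theorem int36 {α : Td d} {f : Td d → ℝ × ℝ} (hf : Measurable f) {L : ℝ}
    (hA : ∀ θ, LL (f θ).1 ≤ L) (n : ℕ) (E : Set (Td d × TT)) :
    IntegrableOn (fun p => Real.log (gN α f n p)) E := by
  refine Integrable.of_bound (meas_gN hf n).log.aestronglyMeasurable (Real.log 2 + n * Real.log L)
    (Eventually.of_forall fun p => ?_)
  rw [Real.norm_eq_abs, abs_of_nonneg (logg36 α f n p)]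
  exact log_le36 α hA n p

theorem lam_le {α : Td d} {f : Td d → ℝ × ℝ} (hf : Measurable f) {L : ℝ} (hA : ∀ θ, LL (f θ).1 ≤ L) {lam : Td d × TT → ℝ}
    (hl : ∀ᵐ p, Tendsto (fun n : ℕ => Real.log (gN α f n p) / n) atTop (𝓝 (lam p))) {E : Set (Td d × TT)}
    (hE : MeasurableSet E) (hinv : Fs α f ⁻¹' E = E) :
    ∫ p in E, lam p ≤ ∫ p in E, Real.log (|va (f p.1) p.2.1| + 2) := by
  have e1 : ∀ p : Td d × TT, Real.log (|va (f p.1) p.2.1| + 2) = Real.log (gN α f 1 p) := by
    intro p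
    unfold gN
    rw [Mx_succ]
    change _ = Real.log (nn (_ * (1 : Matrix (Fin 2) (Fin 2) ℝ)))
    rw [mul_one, Pool.Agent.Helper95.PV.nn_mv]
    unfold sq
    simp [orb]
  simp only [e1]
  have hmp : MeasurePreserving (Fs α f) (volume.restrict E) (volume.restrict E) := by
    have := (Fs_mp (α := α) hf).restrict_preimage hE
    rwa [hinv] at this
  have hiter : ∀ n : ℕ, ∫ p in E, Real.log (gN α f 1 ((Fs α f)^[n] p)) =
      ∫ p in E, Real.log (gN α f 1 p) := by
    intro n
    have h1 := hmp.iterate n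
    have h2 := integral_map (μ := volume.restrict E) h1.measurable.aemeasurable
      (f := fun p => Real.log (gN α f 1 p)) (meas_gN hf 1).log.aestronglyMeasurable
    rw [h1.map_eq] at h2
    exact h2.symm
  have hn : ∀ n : ℕ, ∫ p in E, Real.log (gN α f (n + 1) p) ≤
      ((n + 1 : ℕ) : ℝ) * ∫ p in E, Real.log (gN α f 1 p) := by
    intro n
    induction n with
    | zero => simp
    | succ n ih =>
      have h1 : IntegrableOn (fun p => Real.log (gN α f 1 ((Fs α f)^[n + 1] p))) E := by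
        have h2 := (hmp.iterate (n + 1)).integrable_comp_of_integrable (int36 (α := α) hf hA 1 E)
        exact h2
      calc ∫ p in E, Real.log (gN α f (n + 1 + 1) p)
          ≤ ∫ p in E, (Real.log (gN α f (n + 1) p) + Real.log (gN α f 1 ((Fs α f)^[n + 1] p))) := by
            refine integral_mono (int36 hf hA _ E) ((int36 hf hA _ E).add h1) fun p => ?_
            exact sub36 α f (n + 1) 1 p
        _ = (∫ p in E, Real.log (gN α f (n + 1) p)) +
            ∫ p in E, Real.log (gN α f 1 ((Fs α f)^[n + 1] p)) :=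
            integral_add (int36 hf hA _ E) h1
        _ ≤ ((n + 1 : ℕ) : ℝ) * (∫ p in E, Real.log (gN α f 1 p)) +
            ∫ p in E, Real.log (gN α f 1 p) := by
            rw [hiter]
            linarith
        _ = _ := by
            push_cast
            ring
  refine le_of_tendsto (dom36 hf hA hl E) (Eventually.of_forall fun n => ?_)
  have h0 : (0 : ℝ) < ((n + 1 : ℕ) : ℝ) := by positivity
  rw [div_le_iff₀ h0, mul_comm]
  exact hn n

end Pool.Agent.Helper23.AF
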