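import Pool.Agent.Helper80.AFp.STor

/-! Simple facts on `orb` and `Mx` for sequences of pairs (port of the ends of `Helper46/QP/Defs.lean`, `Meas.lean`). -/

set_option autoImplicit false
open MeasureTheory Real Set

namespace Pool.Agent.Helper23.AF

open Pool.Agent.Helper18.UC (nn LL sh clm pt sqo lab rep toT)
open Pool.Agent.Helper46.QP (TT Td)
open Pool.Agent.Helper95.PV (mv)

variable {d : ℕ}

theorem orb_add (A : ℕ → ℝ × ℝ) (z : TT) (m n : ℕ) :
    orb A z (m + n) = orb (fun j => A (j + m)) (orb A z m) n := by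
  induction n with
  | zero => rfl
  | succ n ih =>
    rw [← add_assoc, orb_succ, ih, orb_succ, add_comm m n]

theorem Mx_add (A : ℕ → ℝ × ℝ) (z : TT) (m n : ℕ) :
    Mx A z (m + n) = Mx (fun j => A (j + m)) (orb A z m) n * Mx A z m := by
  induction n with
  | zero => simp [Mx]
  | succ n ih =>
    rw [← add_assoc, Mx_succ, ih, Mx_succ, orb_add, add_comm m n, Matrix.mul_assoc]

theorem orb_one_add (A : ℕ → ℝ × ℝ) (z : TT) (n : ℕ) :
    orb A z (n + 1) = orb (fun j => A (j + 1)) (stp (A 0) z) n := by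
  rw [add_comm, orb_add]; rfl

theorem Mx_one_add (A : ℕ → ℝ × ℝ) (z : TT) (n : ℕ) :
    Mx A z (n + 1) = Mx (fun j => A (j + 1)) (stp (A 0) z) n * mv (va (A 0) z.1) := by
  rw [add_comm, Mx_add]
  show _ * (mv (va (A 0) z.1) * 1) = _
  rw [Matrix.mul_one]; rfl

theorem det_Mx (A : ℕ → ℝ × ℝ) (z : TT) (n : ℕ) : (Mx A z n).det = 1 := by
  induction n with
  | zero => exact Matrix.det_one
  | succ n ih => rw [Mx_succ, Matrix.det_mul, Pool.Agent.Helper95.PV.det_mv, ih, one_mul]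

theorem nn_mva_le (p : ℝ × ℝ) (x : UnitAddCircle) : nn (mv (va p x)) ≤ LL p.1 := by
  have h1 : |va p x| ≤ 2 + 2 * π * |p.1| := by
    unfold va Pool.Agent.Helper46.QP.va
    have h2 : |(((p.1 : ℝ) : ℂ) * Pool.Agent.Helper46.QP.ee x).re| ≤ |p.1| := by
      refine (Complex.abs_re_le_norm _).trans ?_
      rw [norm_mul, Complex.norm_real, Real.norm_eq_abs]
      have : ‖Pool.Agent.Helper46.QP.ee x‖ = 1 := by
        unfold Pool.Agent.Helper46.QP.ee
        rw [fourier_apply]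
        exact Circle.norm_coe _
      rw [this, mul_one]
    calc |2 + 2 * π * (((p.1 : ℝ) : ℂ) * Pool.Agent.Helper46.QP.ee x).re|
        ≤ |(2:ℝ)| + |2 * π * (((p.1 : ℝ) : ℂ) * Pool.Agent.Helper46.QP.ee x).re| := abs_add_le _ _
      _ ≤ 2 + 2 * π * |p.1| := by
        rw [abs_mul, abs_of_pos (by norm_num : (0:ℝ) < 2), abs_of_pos (by positivity : (0:ℝ) < 2 * π)]
        have := mul_le_mul_of_nonneg_left h2 (by positivity : (0:ℝ) ≤ 2 * π)
        linarith
  rw [Pool.Agent.Helper95.PV.nn_mv]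
  unfold LL
  linarith

theorem Mx_nn_le {A : ℕ → ℝ × ℝ} {L : ℝ} (hA : Bd A L) (z : TT) (n : ℕ) : nn (Mx A z n) ≤ 2 * L ^ n := by
  have hL : 4 ≤ L := Bd_L4 hA
  induction n with
  | zero =>
    show nn (1 : Matrix (Fin 2) (Fin 2) ℝ) ≤ _
    rw [Pool.Agent.Helper18.UC.nn_one, pow_zero, mul_one]
  | succ n ih =>
    rw [Mx_succ]
    refine (Pool.Agent.Helper18.UC.nn_mul _ _).trans ?_
    calc nn (mv (va (A n) (orb A z n).1)) * nn (Mx A z n) ≤ L * (2 * L ^ n) :=
          mul_le_mul ((nn_mva_le _ _).trans (hA n)) ih (Pool.Agent.Helper18.UC.nn_nonneg _) (by linarith)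
      _ = 2 * L ^ (n + 1) := by ring

theorem log_Mx_le {A : ℕ → ℝ × ℝ} {L : ℝ} (hA : Bd A L) (z : TT) (n : ℕ) :
    Real.log (nn (Mx A z n)) ≤ Real.log 2 + n * Real.log L := by
  have hL : 4 ≤ L := Bd_L4 hA
  have h2 : 0 < nn (Mx A z n) := by linarith [Pool.Agent.Helper95.PV.nn_ge_two (det_Mx A z n)]
  refine (Real.log_le_log h2 (Mx_nn_le hA z n)).trans ?_
  rw [Real.log_mul (by norm_num) (pow_pos (by linarith) n).ne', Real.log_pow]

theorem sq_shift (α : Td d) (f : Td d → ℝ × ℝ) (θ : Td d) :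
    (fun j => (sq α f θ) (j + 1)) = (sq α f (θ + α)) := by
  funext j
  unfold sq
  rw [succ_nsmul', add_assoc]

theorem sq_zero (α : Td d) (f : Td d → ℝ × ℝ) (θ : Td d) : (sq α f θ) 0 = f θ := by
  unfold sq
  rw [zero_nsmul, add_zero]

end Pool.Agent.Helper23.AF
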