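import Pool.Agent.Helper80.AFp.SSum
import Pool.Agent.Helper80.AFp.SBase
import Pool.Agent.Helper80.AFp.STend

/-! Block AN-SPOS: invariant subsets of `om` are null or full in almost every fibre.

Let `E ⊆ Ω = om α f c` be invariant, `E' = Ω \ E`. The fibre volumes of `E`, `E'` are invariant under `θ ↦ θ + α`
(`stp` preserves the volume). If the statement fails, there are `v, v' > 0` and `1 < r < 2 prp` such that
`W = {θ | volume.real E_θ ∈ [v, r v], volume.real E'_θ ∈ [v', r v']}` has positive measure (countable cover of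
`(0, 1] × (0, 1]` by such boxes); `W + α = W`. `v1 = v (prp - r/2) / 2`, `v1'` the same with `v'`. Choose `η` with `2 η < v1 v1' / (2 B^2)`. `base` for
`(α, f, E)` (`tend_fwd`): time `n ≥ 1`, set `G ⊆ W` with more than half of the measure of `W`. `base` for the backward system
`(-α, f (· - α), {p | (p.1, swap p.2) ∈ E'})` (`tend_bwd`): `n' ≥ 1`, `G' ⊆ W`. There is `θ ∈ G` with `θ + (n + n') α ∈ G'` (both sets are in
`W`, which is invariant). The backward sequence from `θ + (n + n') α` agrees with `rv (sq α f θ) (n + n')` up to time `n'` (`FamS_congr`).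
`sum_lo`: `E_θ ∩ (orb .. (n + n'))⁻¹ E'_(θ + (n + n') α)` has positive volume; but this set is empty by invariance. -/

set_option autoImplicit false
open MeasureTheory Real Set Filter

namespace Pool.Agent.Helper23.AF

open Pool.Agent.Helper18.UC (nn LL sh clm pt sqo lab rep toT cell)
open Pool.Agent.Helper46.QP (TT Td)

variable {d : ℕ}

private theorem inv_iter6 {α : Td d} {f : Td d → ℝ × ℝ} {E : Set (Td d × TT)} (hinv : Fs α f ⁻¹' E = E) (N : ℕ) :
    (Fs α f)^[N] ⁻¹' E = E := by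
  induction N with
  | zero => rfl
  | succ N ih => rw [Function.iterate_succ', Set.preimage_comp, hinv, ih]

private theorem W_iter6 {α : Td d} {W : Set (Td d)} (hWi : ∀ θ, θ + α ∈ W ↔ θ ∈ W) (N : ℕ) (θ : Td d) :
    θ + N • α ∈ W ↔ θ ∈ W := by
  induction N with
  | zero => rw [zero_nsmul, add_zero]
  | succ N ih => rw [succ_nsmul, ← add_assoc, hWi, ih]

private theorem meet6 {α : Td d} {W G G' : Set (Td d)} (hWi : ∀ θ, θ + α ∈ W ↔ θ ∈ W)
    (hGW : G ⊆ W) (hG'W : G' ⊆ W) (hG : MeasurableSet G) (hG' : MeasurableSet G')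
    (h1 : volume.real W / 2 < volume.real G) (h2 : volume.real W / 2 < volume.real G') (N : ℕ) :
    ∃ θ ∈ G, θ + N • α ∈ G' := by
  by_contra hcon
  push Not at hcon
  set T : Set (Td d) := (fun θ => θ + N • α) ⁻¹' G' with hT
  have hmp : MeasurePreserving (fun θ : Td d => θ + N • α) volume volume :=
    measurePreserving_add_right (volume : Measure (Td d)) (N • α)
  have hTm : MeasurableSet T := hmp.measurable hG'
  have hTv : volume.real T = volume.real G' := by
    rw [measureReal_def, measureReal_def, hT, hmp.measure_preimage hG'.nullMeasurableSet]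
  have hTW : T ⊆ W := fun θ hθ => (W_iter6 hWi N θ).1 (hG'W hθ)
  have hdis : Disjoint G T := by
    rw [Set.disjoint_left]
    intro θ hθ hθ'
    exact hcon θ hθ hθ'
  have h3 : volume.real (G ∪ T) = volume.real G + volume.real T := measureReal_union hdis hTm
  have h4 : volume.real (G ∪ T) ≤ volume.real W := measureReal_mono (union_subset hGW hTW)
  linarith

private theorem swap_vol6 {S : Set TT} (hS : MeasurableSet S) :
    volume.real (Prod.swap ⁻¹' S : Set TT) = volume.real S := by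
  have h : MeasurePreserving (Prod.swap : TT → TT) volume volume := Measure.measurePreserving_swap
  rw [measureReal_def, measureReal_def, h.measure_preimage hS.nullMeasurableSet]

private theorem sec_meas6 {E : Set (Td d × TT)} (hE : MeasurableSet E) (θ : Td d) :
    MeasurableSet {z : TT | (θ, z) ∈ E} := measurable_prodMk_left hE

/-- one choice of the sets -/
theorem no_W {α : Td d} {f : Td d → ℝ × ℝ} (hf : Measurable f) {L B c : ℝ} (hA : ∀ θ, LL (f θ).1 ≤ L) (hN : Num L B c)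
    {E E' : Set (Td d × TT)} (hE : MeasurableSet E) (hEΩ : E ⊆ om α f c) (hinv : Fs α f ⁻¹' E = E)
    (hE' : MeasurableSet E') (hEΩ' : E' ⊆ om α f c) (hinv' : Fs α f ⁻¹' E' = E') (hdis : Disjoint E E')
    {W : Set (Td d)} (hW : MeasurableSet W) (hWi : ∀ θ, θ + α ∈ W ↔ θ ∈ W) {v v' r : ℝ} (hv : 0 < v) (hv' : 0 < v')
    (hr1 : 1 ≤ r) (hr : r < 2 * prp L B c)
    (hWv : ∀ θ ∈ W, v ≤ volume.real {z | (θ, z) ∈ E} ∧ volume.real {z | (θ, z) ∈ E} ≤ r * v)
    (hWv' : ∀ θ ∈ W, v' ≤ volume.real {z | (θ, z) ∈ E'} ∧ volume.real {z | (θ, z) ∈ E'} ≤ r * v') :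
    volume W = 0 := by
  by_contra hWp
  have hpr : 0 < prp L B c - r / 2 := by linarith
  set v1 := v * (prp L B c - r / 2) / 2 with hv1
  set v1' := v' * (prp L B c - r / 2) / 2 with hv1'
  have hv1p : 0 < v1 := by positivity
  have hv1p' : 0 < v1' := by positivity
  have hB := hN.hB
  have hBp : 0 < B := by linarith
  set b : ℝ := 1 / (2 * B ^ 2) with hb
  have hb0 : 0 < b := by positivity
  set η : ℝ := b * (v1 * v1') / 4 with hη
  have hη0 : 0 < η := by positivity
  obtain ⟨n, hn, G, hGW, hGm, hGv, hGF⟩ := base hf hA hN hE (tend_fwd hf hE hEΩ) hW hWp hv hr1 hr hWv hη0 1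
  set Eb : Set (Td d × TT) := {p | (p.1, Prod.swap p.2) ∈ E'} with hEb
  have hEbm : MeasurableSet Eb := by
    have : Measurable fun p : Td d × TT => (p.1, Prod.swap p.2) :=
      measurable_fst.prodMk (measurable_swap.comp measurable_snd)
    exact this hE'
  have hf' : Measurable fun θ : Td d => f (θ - α) := hf.comp (measurable_id.sub_const α)
  have hsec : ∀ θ : Td d, {z : TT | (θ, z) ∈ Eb} = Prod.swap ⁻¹' {z : TT | (θ, z) ∈ E'} := fun θ => rfl
  have hWb : ∀ θ ∈ W, v' ≤ volume.real {z | (θ, z) ∈ Eb} ∧ volume.real {z | (θ, z) ∈ Eb} ≤ r * v' := by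
    intro θ hθ
    rw [hsec, swap_vol6 (sec_meas6 hE' θ)]
    exact hWv' θ hθ
  obtain ⟨n', hn', G', hGW', hGm', hGv', hGF'⟩ := base (α := -α) (f := fun θ => f (θ - α)) hf' (fun θ => hA _) hN
    hEbm (tend_bwd hf hE' hEΩ' hinv') hW hWp hv' hr1 hr hWb hη0 1
  obtain ⟨θ, hθ, hθ'⟩ := meet6 hWi hGW hGW' hGm hGm' hGv hGv' (n + n')
  obtain ⟨𝒬, hQ, hQv⟩ := hGF θ hθ
  obtain ⟨𝒬', hQ', hQv'⟩ := hGF' _ hθ'
  have hQ2 : FamS (rv (sq α f θ) (n + n')) L B n' (Prod.swap ⁻¹' {z : TT | (θ + (n + n') • α, z) ∈ E'}) η 𝒬' := by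
    refine FamS_congr ?_ hQ'
    intro j hj
    unfold sq rv
    simp only
    congr 1
    obtain ⟨m, hm⟩ : ∃ m, n + n' = m + 1 + j := ⟨n + n' - 1 - j, by omega⟩
    have e : m + 1 + j - 1 - j = m := by omega
    rw [hm, e, add_nsmul, add_nsmul, smul_neg, one_nsmul]
    abel
  have hs := sum_lo (A := sq α f θ) (L := L) (fun j => hA _) hB hn hn' (sec_meas6 hE θ)
    (sec_meas6 hE' (θ + (n + n') • α)) hη0.le hQ hQ2
  have hemp : {z : TT | (θ, z) ∈ E} ∩ (fun z => orb (sq α f θ) z (n + n')) ⁻¹'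
      {z : TT | (θ + (n + n') • α, z) ∈ E'} = ∅ := by
    rw [eq_empty_iff_forall_notMem]
    rintro z ⟨h1, h2⟩
    have h3 : (θ, z) ∈ (Fs α f)^[n + n'] ⁻¹' E' := by
      show (Fs α f)^[n + n'] (θ, z) ∈ E'
      rw [Fs_iter]
      exact h2
    rw [inv_iter6 hinv'] at h3
    exact (Set.disjoint_left.1 hdis) h1 h3
  rw [hemp, measureReal_empty] at hs
  have k3 : v1 * v1' ≤ volume.real (⋃₀ 𝒬) * volume.real (⋃₀ 𝒬') :=
    mul_le_mul hQv hQv' hv1p'.le (hv1p.le.trans hQv)
  have k6 : b * (v1 * v1') ≤ b * (volume.real (⋃₀ 𝒬) * volume.real (⋃₀ 𝒬')) :=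
    mul_le_mul_of_nonneg_left k3 hb0.le
  have k8 : 0 < b * (v1 * v1') := mul_pos hb0 (mul_pos hv1p hv1p')
  linarith

/-- the fibre volumes of an invariant set are invariant -/
private theorem fib_inv6 {α : Td d} {f : Td d → ℝ × ℝ} {E : Set (Td d × TT)} (hE : MeasurableSet E)
    (hinv : Fs α f ⁻¹' E = E) (θ : Td d) :
    volume.real {z : TT | (θ + α, z) ∈ E} = volume.real {z : TT | (θ, z) ∈ E} := by
  have h1 : {z : TT | (θ, z) ∈ E} = stp (f θ) ⁻¹' {z : TT | (θ + α, z) ∈ E} := by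
    ext z
    have : (θ, z) ∈ E ↔ (θ, z) ∈ Fs α f ⁻¹' E := by rw [hinv]
    exact this
  rw [h1, measureReal_def, measureReal_def,
    (stp_mp _).measure_preimage (sec_meas6 hE (θ + α)).nullMeasurableSet]

theorem nul_full {α : Td d} {f : Td d → ℝ × ℝ} (hf : Measurable f) {L B c : ℝ} (hA : ∀ θ, LL (f θ).1 ≤ L) (hN : Num L B c)
    {E : Set (Td d × TT)} (hE : MeasurableSet E) (hEΩ : E ⊆ om α f c) (hinv : Fs α f ⁻¹' E = E) :
    ∀ᵐ θ : Td d, volume {z : TT | (θ, z) ∈ E} = 0 ∨ volume {z : TT | (θ, z) ∈ om α f c \ E} = 0 := by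
  set E' : Set (Td d × TT) := om α f c \ E with hE'd
  have hE' : MeasurableSet E' := (meas_om hf c).diff hE
  have hinv' : Fs α f ⁻¹' E' = E' := by
    rw [hE'd, preimage_sdiff, om_inv hA c, hinv]
  have hgm : ∀ {H : Set (Td d × TT)}, MeasurableSet H → Measurable fun θ : Td d => volume.real {z | (θ, z) ∈ H} := by
    intro H hH
    have h1 : Measurable fun θ : Td d => volume (Prod.mk θ ⁻¹' H) := measurable_measure_prodMk_left hH
    exact h1.ennreal_toReal
  have hp := hN.half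
  set p := prp L B c with hpd
  set r : ℝ := (1 + 2 * p) / 2 with hr
  have hr1 : 1 < r := by rw [hr]; linarith
  have hr2 : r < 2 * p := by rw [hr]; linarith
  have hr0 : 0 < r := by linarith
  set y : ℝ := 1 / r with hy
  have hy0 : 0 < y := by positivity
  have hy1 : y < 1 := by rw [hy, div_lt_one hr0]; exact hr1
  have hry : ∀ k : ℕ, r * y ^ (k + 1) = y ^ k := by
    intro k
    rw [pow_succ, hy]
    field_simp
  set W : ℕ → ℕ → Set (Td d) := fun k l =>
    {θ | y ^ (k + 1) ≤ volume.real {z | (θ, z) ∈ E} ∧ volume.real {z | (θ, z) ∈ E} ≤ r * y ^ (k + 1)} ∩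
    {θ | y ^ (l + 1) ≤ volume.real {z | (θ, z) ∈ E'} ∧ volume.real {z | (θ, z) ∈ E'} ≤ r * y ^ (l + 1)} with hW
  have hWm : ∀ k l, MeasurableSet (W k l) := by
    intro k l
    refine MeasurableSet.inter ?_ ?_
    · exact (measurableSet_le measurable_const (hgm hE)).inter (measurableSet_le (hgm hE) measurable_const)
    · exact (measurableSet_le measurable_const (hgm hE')).inter (measurableSet_le (hgm hE') measurable_const)
  have hW0 : ∀ k l, volume (W k l) = 0 := by
    intro k l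
    refine no_W hf hA hN hE hEΩ hinv hE' sdiff_subset hinv' ?_ (hWm k l) ?_ (pow_pos hy0 (k + 1))
      (pow_pos hy0 (l + 1)) hr1.le hr2 (fun θ hθ => hθ.1) (fun θ hθ => hθ.2)
    · rw [Set.disjoint_left]
      intro q hq hq'
      exact hq'.2 hq
    · intro θ
      simp only [hW, mem_inter_iff, mem_ofPred_eq]
      rw [fib_inv6 hE hinv, fib_inv6 hE' hinv']
  have hun : volume (⋃ k, ⋃ l, W k l) = 0 :=
    measure_iUnion_null fun k => measure_iUnion_null fun l => hW0 k l
  have hae := measure_eq_zero_iff_ae_notMem.1 hun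
  filter_upwards [hae] with θ hθ
  by_contra hcon
  push Not at hcon
  obtain ⟨h1, h2⟩ := hcon
  apply hθ
  have key : ∀ {S : Set TT}, volume S ≠ 0 → ∃ k : ℕ, y ^ (k + 1) ≤ volume.real S ∧ volume.real S ≤ r * y ^ (k + 1) := by
    intro S hS
    have h3 : 0 < volume.real S := ENNReal.toReal_pos hS (measure_ne_top _ _)
    have h4 : volume.real S ≤ 1 := by
      have h5 : volume S ≤ 1 := by
        refine (measure_mono (subset_univ _)).trans (le_of_eq ?_)
        rw [← univ_prod_univ, Measure.volume_eq_prod, Measure.prod_prod, UnitAddCircle.measure_univ, mul_one]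
      exact ENNReal.toReal_le_of_le_ofReal zero_le_one (by rwa [ENNReal.ofReal_one])
    obtain ⟨k, hk1, hk2⟩ := exists_nat_pow_near_of_lt_one h3 h4 hy0 hy1
    exact ⟨k, hk1.le, by rw [hry]; exact hk2⟩
  obtain ⟨k, hk⟩ := key h1
  obtain ⟨l, hl⟩ := key h2
  exact mem_iUnion.2 ⟨k, mem_iUnion.2 ⟨l, hk, hl⟩⟩

end Pool.Agent.Helper23.AF
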