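import Pool.Agent.Helper80.AFp.SBas

/-! Block AN-STOR: the torus version. Compare `Helper18/UC/Torus.lean` (`S_iter`, `nn_rep`) and `tor_Fn`, `Fn_der88` in
`Helper46/QP/Link.lean` (`ee_coe`: `ee x = exp(2π i x)`, so `(A * ee x).im = A sin 2πx`, `va A x = vv A x` for real `A`).
`meas_gN`: `Mx_meas` in `Helper46/QP/Meas.lean`. -/

set_option autoImplicit false
open MeasureTheory Real Set

namespace Pool.Agent.Helper23.AF

open Pool.Agent.Helper18.UC (nn LL sh clm pt sqo lab rep toT)
open Pool.Agent.Helper46.QP (TT Td)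

variable {d : ℕ}

private lemma ee_coe80 (x : ℝ) : Pool.Agent.Helper46.QP.ee (x : UnitAddCircle) =
    Complex.exp (2 * π * Complex.I * x) := by
  unfold Pool.Agent.Helper46.QP.ee
  rw [fourier_coe_apply]
  congr 1
  push_cast
  ring

private lemma ee_re_im80 (a x : ℝ) :
    ((a : ℂ) * Pool.Agent.Helper46.QP.ee (x : UnitAddCircle)).im = a * Real.sin (2 * π * x) ∧
      ((a : ℂ) * Pool.Agent.Helper46.QP.ee (x : UnitAddCircle)).re = a * Real.cos (2 * π * x) := by
  have e : (2 * π * Complex.I * x : ℂ) = ((2 * π * x : ℝ) : ℂ) * Complex.I := by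
    push_cast
    ring
  rw [ee_coe80, Complex.im_ofReal_mul, Complex.re_ofReal_mul, e, Complex.exp_ofReal_mul_I_im,
    Complex.exp_ofReal_mul_I_re]
  exact ⟨rfl, rfl⟩

private lemma toT_F80 (p : ℝ × ℝ) (q : ℝ × ℝ) : toT (Fp p q) = stp p (toT q) := by
  refine Prod.ext ?_ rfl
  show ((2 * q.1 - q.2 + p.1 * Real.sin (2 * π * q.1) + p.2 : ℝ) : UnitAddCircle) =
    (q.1 : UnitAddCircle) + (q.1 : UnitAddCircle) - (q.2 : UnitAddCircle) +
      (((((p.1 : ℝ) : ℂ) * Pool.Agent.Helper46.QP.ee (q.1 : UnitAddCircle)).im : ℝ) : UnitAddCircle) +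
      ((p.2 : ℝ) : UnitAddCircle)
  rw [(ee_re_im80 p.1 q.1).1, ← AddCircle.coe_add, ← AddCircle.coe_sub, ← AddCircle.coe_add, ← AddCircle.coe_add,
    two_mul]

private lemma va_coe80 (p : ℝ × ℝ) (q : ℝ × ℝ) :
    Pool.Agent.Helper95.PV.mv (va p (toT q).1) = Pool.Agent.Helper18.UC.A p.1 q := by
  have h : va p (toT q).1 = Pool.Agent.Helper18.UC.vv p.1 q.1 := by
    unfold va Pool.Agent.Helper46.QP.va Pool.Agent.Helper18.UC.vv
    show 2 + 2 * π * (((p.1 : ℝ) : ℂ) * Pool.Agent.Helper46.QP.ee (q.1 : UnitAddCircle)).re = _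
    rw [(ee_re_im80 p.1 q.1).2]
    ring
  rw [h]
  rfl

theorem toT_po (A : ℕ → ℝ × ℝ) (n : ℕ) (q : ℝ × ℝ) : toT (po A n q) = orb A (toT q) n := by
  induction n with
  | zero => rfl
  | succ n ih =>
    rw [orb_succ, ← ih]
    exact toT_F80 (A n) (po A n q)

theorem Mx_toT (A : ℕ → ℝ × ℝ) (n : ℕ) (q : ℝ × ℝ) : Mx A (toT q) n = pM A n q := by
  induction n with
  | zero => rfl
  | succ n ih =>
    rw [Mx_succ, ih, ← toT_po, va_coe80]
    rfl

theorem Mx_rep (A : ℕ → ℝ × ℝ) (n : ℕ) (z : TT) : Mx A z n = pM A n (rep z) := by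
  rw [← Mx_toT, Pool.Agent.Helper18.UC.toT_rep]

/-- time reversal on the torus -/
theorem orb_rev (A : ℕ → ℝ × ℝ) (n n' : ℕ) (z : TT) :
    orb ((rv A (n + n'))) (Prod.swap (orb A z (n + n'))) n' = Prod.swap (orb A z n) := by
  have h1 : ∀ m, orb A z m = toT (po A m (rep z)) := fun m => by
    rw [toT_po, Pool.Agent.Helper18.UC.toT_rep]
  have h2 : ∀ q : ℝ × ℝ, Prod.swap (toT q) = toT (Prod.swap q) := fun _ => rfl
  rw [h1, h1, h2, h2, ← toT_po, po_rev]

theorem nn_orb_rev (A : ℕ → ℝ × ℝ) (n : ℕ) (z : TT) :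
    nn (pM (rv A n) n (rep (Prod.swap (orb A z n)))) = nn (pM A n (rep z)) := by
  have h1 : Prod.swap (orb A z n) = toT (Prod.swap (po A n (rep z))) := by
    have : orb A z n = toT (po A n (rep z)) := by
      rw [toT_po, Pool.Agent.Helper18.UC.toT_rep]
    rw [this]
    rfl
  obtain ⟨u, w, h⟩ := Pool.Agent.Helper18.UC.rep_toT (Prod.swap (po A n (rep z)))
  rw [h1, h, pM_sh]
  have h3 := pnn_rev A 0 n (rep z)
  rw [zero_add] at h3
  rw [h3]
  rfl

theorem sq_meas {α : Td d} {f : Td d → ℝ × ℝ} (hf : Measurable f) : Measurable fun θ : Td d => (sq α f θ) := by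
  refine measurable_pi_lambda _ fun j => ?_
  unfold sq
  exact hf.comp (measurable_id.add_const _)

theorem stp_meas : Measurable fun p : (ℝ × ℝ) × TT => stp p.1 p.2 := by
  have hc : Measurable fun p : (ℝ × ℝ) × TT => ((((p.1.1 : ℝ) : ℂ), p.2) : ℂ × TT) :=
    (Complex.measurable_ofReal.comp (measurable_fst.comp measurable_fst)).prodMk measurable_snd
  have h1 := Pool.Agent.Helper46.QP.stp_meas.comp hc
  have h2 : Measurable fun p : (ℝ × ℝ) × TT => ((p.1.2 : ℝ) : UnitAddCircle) :=
    Pool.Agent.Helper46.QP.meas_coe.comp (measurable_snd.comp measurable_fst)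
  have hx : Measurable fun p : (ℝ × ℝ) × TT => p.2.1 := measurable_fst.comp measurable_snd
  unfold stp
  exact ((measurable_fst.comp h1).add h2).prodMk hx

theorem va_meas : Measurable fun p : (ℝ × ℝ) × UnitAddCircle => va p.1 p.2 := by
  have hc : Measurable fun p : (ℝ × ℝ) × UnitAddCircle => ((((p.1.1 : ℝ) : ℂ), p.2) : ℂ × UnitAddCircle) :=
    (Complex.measurable_ofReal.comp (measurable_fst.comp measurable_fst)).prodMk measurable_snd
  unfold va
  exact Pool.Agent.Helper46.QP.va_meas.comp hc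

theorem stp_mp (p : ℝ × ℝ) : MeasurePreserving (stp p) (volume : Measure TT) volume := by
  have h1 := Pool.Agent.Helper46.QP.stp_mp ((p.1 : ℝ) : ℂ)
  have h2 : MeasurePreserving (fun z : TT => z + (((p.2 : ℝ) : UnitAddCircle), (0 : UnitAddCircle)))
      (volume : Measure TT) volume := by
    have h3 := (measurePreserving_add_right (volume : Measure UnitAddCircle) ((p.2 : ℝ) : UnitAddCircle)).prod
      (MeasurePreserving.id (volume : Measure UnitAddCircle))
    have e : (fun z : TT => z + (((p.2 : ℝ) : UnitAddCircle), (0 : UnitAddCircle))) =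
        Prod.map (fun x : UnitAddCircle => x + ((p.2 : ℝ) : UnitAddCircle)) id := by
      funext z
      refine Prod.ext rfl ?_
      show z.2 + 0 = z.2
      rw [add_zero]
    rw [e]
    exact h3
  have h := h2.comp h1
  have e : stp p = (fun z : TT => z + (((p.2 : ℝ) : UnitAddCircle), (0 : UnitAddCircle))) ∘
      Pool.Agent.Helper46.QP.stp ((p.1 : ℝ) : ℂ) := by
    funext z
    refine Prod.ext rfl ?_
    show z.1 = z.1 + 0
    rw [add_zero]
  rw [e]
  exact h

theorem orb_meas (n : ℕ) : Measurable fun p : (ℕ → ℝ × ℝ) × TT => orb p.1 p.2 n := by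
  induction n with
  | zero => exact measurable_snd
  | succ n ih =>
    have hb : Measurable fun p : (ℕ → ℝ × ℝ) × TT => ((p.1 n, orb p.1 p.2 n) : (ℝ × ℝ) × TT) :=
      ((measurable_pi_apply n).comp measurable_fst).prodMk ih
    exact stp_meas.comp hb

theorem orb_mp (A : ℕ → ℝ × ℝ) (n : ℕ) : MeasurePreserving (fun z => orb A z n) volume volume := by
  induction n with
  | zero => exact MeasurePreserving.id _
  | succ n ih => exact (stp_mp (A n)).comp ih

theorem Mx_meas' (n : ℕ) (i j : Fin 2) : Measurable fun p : (ℕ → ℝ × ℝ) × TT => Mx p.1 p.2 n i j := by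
  induction n generalizing i j with
  | zero => exact measurable_const
  | succ n ih =>
    have hv : Measurable fun p : (ℕ → ℝ × ℝ) × TT => va (p.1 n) (orb p.1 p.2 n).1 := by
      have hb : Measurable fun p : (ℕ → ℝ × ℝ) × TT => ((p.1 n, (orb p.1 p.2 n).1) : (ℝ × ℝ) × UnitAddCircle) :=
        ((measurable_pi_apply n).comp measurable_fst).prodMk (measurable_fst.comp (orb_meas n))
      exact va_meas.comp hb
    have hD : ∀ i j : Fin 2, Measurable fun p : (ℕ → ℝ × ℝ) × TT =>
        Pool.Agent.Helper95.PV.mv (va (p.1 n) (orb p.1 p.2 n).1) i j := by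
      intro i j
      unfold Pool.Agent.Helper95.PV.mv
      fin_cases i <;> fin_cases j
      · exact hv
      · exact measurable_const
      · exact measurable_const
      · exact measurable_const
    simp only [Mx_succ, Matrix.mul_apply, Fin.sum_univ_two]
    exact ((hD i 0).mul (ih 0 j)).add ((hD i 1).mul (ih 1 j))

theorem Mx_meas (n : ℕ) : Measurable fun p : (ℕ → ℝ × ℝ) × TT => nn (Mx p.1 p.2 n) := by
  have ha : ∀ i j : Fin 2, Measurable fun p : (ℕ → ℝ × ℝ) × TT => |Mx p.1 p.2 n i j| :=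
    fun i j => (Mx_meas' n i j).norm
  unfold Pool.Agent.Helper18.UC.nn
  exact (((ha 0 0).add (ha 0 1)).add (ha 1 0)).add (ha 1 1)

theorem Fs_meas {α : Td d} {f : Td d → ℝ × ℝ} (hf : Measurable f) : Measurable (Fs α f) := by
  have hc : Measurable fun p : Td d × TT => ((f p.1, p.2) : (ℝ × ℝ) × TT) :=
    (hf.comp measurable_fst).prodMk measurable_snd
  unfold Fs
  exact (measurable_fst.add_const _).prodMk (stp_meas.comp hc)

theorem Fs_mp {α : Td d} {f : Td d → ℝ × ℝ} (hf : Measurable f) :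
    MeasurePreserving (Fs α f) (volume : Measure (Td d × TT)) volume := by
  have hm : Measurable (Function.uncurry fun (θ : Td d) (z : TT) => stp (f θ) z) := by
    have hc : Measurable fun p : Td d × TT => ((f p.1, p.2) : (ℝ × ℝ) × TT) :=
      (hf.comp measurable_fst).prodMk measurable_snd
    exact stp_meas.comp hc
  have h := (measurePreserving_add_right (volume : Measure (Td d)) α).skew_product
    (μc := (volume : Measure TT)) (μd := (volume : Measure TT))
    (g := fun θ z => stp (f θ) z) hm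
    (Filter.Eventually.of_forall fun θ => (stp_mp _).map_eq)
  exact h

theorem meas_gN {α : Td d} {f : Td d → ℝ × ℝ} (hf : Measurable f) (n : ℕ) : Measurable (gN α f n) := by
  have hc : Measurable fun p : Td d × TT => (((sq α f p.1), p.2) : (ℕ → ℝ × ℝ) × TT) :=
    ((sq_meas hf).comp measurable_fst).prodMk measurable_snd
  exact (Mx_meas n).comp hc

theorem meas_PN {α : Td d} {f : Td d → ℝ × ℝ} (hf : Measurable f) (c : ℝ) (N : ℕ) : MeasurableSet (PN α f c N) :=
  measurableSet_le measurable_const (meas_gN hf N)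

theorem meas_HG {α : Td d} {f : Td d → ℝ × ℝ} (hf : Measurable f) (L B : ℝ) (n : ℕ) : MeasurableSet (HG α f L B n) := by
  have e : HG α f L B n = ⋂ i : ℕ, ⋂ _ : i ≤ n, {p | KL L B ^ (n - i) * gN α f i p ≤ gN α f n p} := by
    ext p
    simp only [HG, Hyp, gN, mem_ofPred_eq, mem_iInter, Mx_rep]
  rw [e]
  exact MeasurableSet.iInter fun i => MeasurableSet.iInter fun _ =>
    measurableSet_le ((meas_gN hf i).const_mul _) (meas_gN hf n)

theorem meas_om {α : Td d} {f : Td d → ℝ × ℝ} (hf : Measurable f) (c : ℝ) : MeasurableSet (om α f c) := by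
  unfold om
  exact measurableSet_lt measurable_const (Measurable.liminf fun n => (meas_gN hf n).log.div_const _)

/-- the inverse map: reflection of the map with the frequency `-α` and the amplitude `f (· - α)` -/
theorem Fs_inv (α : Td d) (f : Td d → ℝ × ℝ) (p : Td d × TT) :
    Fs (-α) (fun θ => f (θ - α)) ((Fs α f p).1, Prod.swap (Fs α f p).2) = (p.1, Prod.swap p.2) := by
  unfold Fs
  refine Prod.ext ?_ ?_
  · show p.1 + α + -α = p.1
    abel
  · show stp (f (p.1 + α - α)) (Prod.swap (stp (f p.1) p.2)) = Prod.swap p.2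
    rw [add_sub_cancel_right]
    refine Prod.ext ?_ rfl
    show p.2.1 + p.2.1 - (p.2.1 + p.2.1 - p.2.2 +
        ((((((f p.1).1 : ℝ) : ℂ) * Pool.Agent.Helper46.QP.ee p.2.1).im : ℝ) : UnitAddCircle) +
        (((f p.1).2 : ℝ) : UnitAddCircle)) +
        ((((((f p.1).1 : ℝ) : ℂ) * Pool.Agent.Helper46.QP.ee p.2.1).im : ℝ) : UnitAddCircle) +
        (((f p.1).2 : ℝ) : UnitAddCircle) = p.2.2
    abel

end Pool.Agent.Helper23.AF
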